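import Pool.Agent.Helper53_SG.Gen

/-!
# The simple graph of a coloured graph; rotations are sign functions
-/

set_option autoImplicit false

namespace Pool.Agent.Helper53_SG

open Pool.Agent.Helper74_SE

section

variable {V : Type} (X : CG V)

/-- the graph of a coloured graph -/
def gr : SimpleGraph V where
  Adj x y := ∃ i, X.t i x = y
  symm := ⟨by rintro x y ⟨i, rfl⟩; exact ⟨i, X.inv i x⟩⟩
  loopless := ⟨by rintro x ⟨i, h⟩; exact X.ne i x h⟩

variable (hs : ∀ x i j, X.t i x = X.t j x → i = j)

/-- the oriented edges -/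
noncomputable def dt : V × Fin 3 ≃ (gr X).Dart :=
  Equiv.ofBijective (fun y => ⟨(y.1, X.t y.2 y.1), ⟨y.2, rfl⟩⟩) (by
    constructor
    · rintro ⟨x, i⟩ ⟨y, j⟩ h
      have h1 : (x, X.t i x) = (y, X.t j y) := congrArg (fun d : (gr X).Dart => d.toProd) h
      have h2 : x = y := congrArg Prod.fst h1
      have h3 : X.t i x = X.t j y := congrArg Prod.snd h1
      subst h2
      rw [hs x i j h3]
    · rintro ⟨⟨x, y⟩, i, h⟩
      exact ⟨(x, i), by
        ext
        · rfl
        · exact h⟩)

theorem dt_toProd (x : V) (i : Fin 3) : (dt X hs (x, i)).toProd = (x, X.t i x) := rfl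

theorem dt_fst (x : V) (i : Fin 3) : (dt X hs (x, i)).fst = x := rfl

theorem dt_symm (x : V) (i : Fin 3) : (dt X hs (x, i)).symm = dt X hs (X.t i x, i) := by
  ext
  · rfl
  · show x = X.t i (X.t i x)
    rw [X.inv]

include hs in
theorem gr_cubic [Finite V] (x : V) : ((gr X).neighborSet x).ncard = 3 := by
  have h1 : (gr X).neighborSet x = Set.range (fun i : Fin 3 => X.t i x) := by
    ext y
    rfl
  rw [h1, ← Set.image_univ, Set.ncard_image_of_injective _ (fun i j h => hs x i j h),
    Set.ncard_univ, Nat.card_eq_fintype_card, Fintype.card_fin]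

/-- the turn at every vertex -/
def trn (s : V → Bool) : Equiv.Perm (V × Fin 3) where
  toFun y := (y.1, y.2 + st (s y.1))
  invFun y := (y.1, y.2 - st (s y.1))
  left_inv y := by
    rcases y with ⟨x, i⟩
    simp only [add_sub_cancel_right]
  right_inv y := by
    rcases y with ⟨x, i⟩
    simp only [sub_add_cancel]

theorem turn3 : ∀ (b : Bool) (i j : Fin 3), j = i ∨ j = i + st b ∨ j = i + st b + st b := by
  decide

/-- the rotation of a sign function -/
noncomputable def rot (s : V → Bool) : Rotation (gr X) where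
  next := (dt X hs).permCongr (trn s)
  fst_next := by
    intro d
    obtain ⟨⟨x, i⟩, rfl⟩ := (dt X hs).surjective d
    rw [Equiv.permCongr_apply, Equiv.symm_apply_apply]
    rfl
  cyclic := by
    intro d e hde
    obtain ⟨⟨x, i⟩, rfl⟩ := (dt X hs).surjective d
    obtain ⟨⟨y, j⟩, rfl⟩ := (dt X hs).surjective e
    have hxy : x = y := hde
    subst hxy
    have h1 : ∀ k, ((dt X hs).permCongr (trn s)) (dt X hs (x, k)) = dt X hs (x, k + st (s x)) := by
      intro k
      rw [Equiv.permCongr_apply, Equiv.symm_apply_apply]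
      rfl
    have h2 := turn3 (s x) i j
    rcases h2 with h2 | h2 | h2
    · rw [h2]
    · rw [h2, ← h1]
      exact Equiv.Perm.sameCycle_apply_right.2 (Equiv.Perm.SameCycle.refl _ _)
    · rw [h2, ← h1, ← h1]
      exact Equiv.Perm.sameCycle_apply_right.2
        (Equiv.Perm.sameCycle_apply_right.2 (Equiv.Perm.SameCycle.refl _ _))

theorem rot_next (s : V → Bool) (x : V) (i : Fin 3) :
    (rot X hs s).next (dt X hs (x, i)) = dt X hs (x, i + st (s x)) := by
  show ((dt X hs).permCongr (trn s)) (dt X hs (x, i)) = _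
  rw [Equiv.permCongr_apply, Equiv.symm_apply_apply]
  rfl

theorem fin3_perm : ∀ ρ : Fin 3 → Fin 3, Function.Injective ρ → (∀ i, ρ i ≠ i) →
    (∀ i, ρ i = i + 1) ∨ ∀ i, ρ i = i + 2 := by
  decide

/-- every rotation is given by a sign function -/
theorem exists_sign (R : Rotation (gr X)) :
    ∃ s : V → Bool, ∀ x i, R.next (dt X hs (x, i)) = dt X hs (x, i + st (s x)) := by
  have key : ∀ x, ∃ b : Bool, ∀ i, R.next (dt X hs (x, i)) = dt X hs (x, i + st b) := by
    intro x
    have h1 : ∀ i, ∃ j, R.next (dt X hs (x, i)) = dt X hs (x, j) := by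
      intro i
      obtain ⟨⟨y, j⟩, hy⟩ := (dt X hs).surjective (R.next (dt X hs (x, i)))
      have h2 : (R.next (dt X hs (x, i))).fst = x := by rw [R.fst_next]; rfl
      rw [← hy] at h2
      have h3 : y = x := h2
      subst h3
      exact ⟨j, hy.symm⟩
    choose ρ hρ using h1
    have h4 : Function.Injective ρ := by
      intro i j hij
      have h5 : R.next (dt X hs (x, i)) = R.next (dt X hs (x, j)) := by rw [hρ, hρ, hij]
      have h6 := (dt X hs).injective (R.next.injective h5)
      exact congrArg Prod.snd h6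
    have h7 : ∀ i, ρ i ≠ i := by
      intro i hi
      have h8 : R.next (dt X hs (x, i)) = dt X hs (x, i) := by rw [hρ, hi]
      have h9 := R.cyclic (dt X hs (x, i)) (dt X hs (x, i + 1)) rfl
      have h10 := h9.eq_of_left h8
      have h11 := congrArg Prod.snd ((dt X hs).injective h10)
      exact ne1 i h11.symm
    rcases fin3_perm ρ h4 h7 with h | h
    · exact ⟨true, fun i => by rw [hρ, h]; rfl⟩
    · exact ⟨false, fun i => by rw [hρ, h]; rfl⟩
  choose s hs' using key
  exact ⟨s, hs'⟩

variable {X} {hs}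

theorem face_dt {R : Rotation (gr X)} {s : V → Bool}
    (h : ∀ x i, R.next (dt X hs (x, i)) = dt X hs (x, i + st (s x))) (y : V × Fin 3) :
    R.face (dt X hs y) = dt X hs (phi X s y) := by
  rcases y with ⟨x, i⟩
  rw [face_apply, dt_symm, h, phi_apply]

theorem same_iff {R : Rotation (gr X)} {s : V → Bool}
    (h : ∀ x i, R.next (dt X hs (x, i)) = dt X hs (x, i + st (s x))) (y z : V × Fin 3) :
    R.face.SameCycle (dt X hs y) (dt X hs z) ↔ (phi X s).SameCycle y z := by
  constructor
  · intro h1
    have h2 := same_inv (g := fun d => (phi X s).SameCycle y ((dt X hs).symm d)) (by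
      intro d
      obtain ⟨u, rfl⟩ := (dt X hs).surjective d
      simp only [face_dt h, Equiv.symm_apply_apply]
      exact propext Equiv.Perm.sameCycle_apply_right) h1
    simp only [Equiv.symm_apply_apply] at h2
    rw [← h2]
  · intro h1
    have h2 := same_inv (g := fun u => R.face.SameCycle (dt X hs y) (dt X hs u)) (by
      intro u
      simp only [← face_dt h]
      exact propext Equiv.Perm.sameCycle_apply_right) h1
    rw [← h2]

theorem circ_iff {R : Rotation (gr X)} {s : V → Bool}
    (h : ∀ x i, R.next (dt X hs (x, i)) = dt X hs (x, i + st (s x))) :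
    R.CircuitFaces ↔ Circ X s := by
  constructor
  · rintro h1 ⟨x, i⟩ h2
    refine h1 (dt X hs (x, i)) ?_
    rw [dt_symm]
    exact (same_iff h _ _).2 h2
  · rintro h1 d
    obtain ⟨⟨x, i⟩, rfl⟩ := (dt X hs).surjective d
    rw [dt_symm]
    intro h2
    exact h1 (x, i) ((same_iff h _ _).1 h2)

theorem faces_le [Finite V] {R : Rotation (gr X)} {v : V} (hm : Meets X v)
    (hR : R.CircuitFaces) (hs : ∀ x i j, X.t i x = X.t j x → i = j) : R.faces ≤ 3 := by
  obtain ⟨s, h⟩ := exists_sign X hs R
  have hc := (circ_iff h).1 hR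
  let F : Fin 3 → Quotient (Equiv.Perm.SameCycle.setoid R.face) :=
    fun i => Quotient.mk _ (dt X hs (v, i))
  have hF : Function.Surjective F := by
    intro q
    obtain ⟨d, rfl⟩ := Quotient.exists_rep q
    obtain ⟨y, rfl⟩ := (dt X hs).surjective d
    obtain ⟨i, hi⟩ := hm s hc y
    exact ⟨i, Quotient.sound ((same_iff h _ _).2 hi.symm)⟩
  have h8 := Nat.card_le_card_of_surjective F hF
  have e : Nat.card (Fin 3) = 3 := by simp
  rw [e] at h8
  exact h8

theorem le_faces [Finite V] {R : Rotation (gr X)} {s : V → Bool}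
    (h : ∀ x i, R.next (dt X hs (x, i)) = dt X hs (x, i + st (s x))) {Λ : Type} [Fintype Λ]
    (p : V × Fin 3 → Λ) (hp : ∀ y, p (phi X s y) = p y) (hsur : Function.Surjective p) :
    Fintype.card Λ ≤ R.faces := by
  classical
  have hfin : Finite (gr X).Dart := Finite.of_equiv _ (dt X hs)
  let F : Quotient (Equiv.Perm.SameCycle.setoid R.face) → Λ :=
    Quotient.lift (fun d => p ((dt X hs).symm d)) (by
      intro d e hde
      obtain ⟨u, rfl⟩ := (dt X hs).surjective d
      obtain ⟨w, rfl⟩ := (dt X hs).surjective e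
      simp only [Equiv.symm_apply_apply]
      exact same_inv hp ((same_iff h _ _).1 hde))
  have hF : Function.Surjective F := by
    intro l
    obtain ⟨y, rfl⟩ := hsur l
    refine ⟨Quotient.mk _ (dt X hs y), ?_⟩
    show p ((dt X hs).symm (dt X hs y)) = p y
    rw [Equiv.symm_apply_apply]
  have h8 := Nat.card_le_card_of_surjective F hF
  have e : Nat.card Λ = Fintype.card Λ := Nat.card_eq_fintype_card
  rw [e] at h8
  exact h8

end

end Pool.Agent.Helper53_SG
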