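import Pool.Agent.Helper53_SG.Stage

/-!
# General facts on rotations of cubic graphs, and the graph of a coloured graph
-/

set_option autoImplicit false

namespace Pool.Agent.Helper53_SG

open Pool.Agent.Helper74_SE

/-! ## At least three faces -/

section

variable {W : Type} {G : SimpleGraph W}

theorem face_apply (R : Rotation G) (d : G.Dart) : R.face d = R.next d.symm := rfl

/-- consecutive oriented edges are in different faces -/
theorem circ_next {R : Rotation G} (hR : R.CircuitFaces) (d : G.Dart) :
    ¬ R.face.SameCycle d (R.next d) := by
  intro h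
  have h1 : R.face d.symm = R.next d := by
    rw [face_apply, SimpleGraph.Dart.symm_symm]
  rw [← h1, Equiv.Perm.sameCycle_apply_right] at h
  exact hR d h

/-- the oriented edges at `w` -/
theorem ncard_darts [Finite W] (w : W) :
    {d : G.Dart | d.fst = w}.ncard = (G.neighborSet w).ncard := by
  refine Set.ncard_congr (fun d _ => d.snd) ?_ ?_ ?_
  · intro d hd
    rw [SimpleGraph.mem_neighborSet, ← (show d.fst = w from hd)]
    exact d.adj
  · intro d e hd he hde
    ext
    · rw [show d.fst = w from hd, show e.fst = w from he]
    · exact hde
  · intro y hy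
    exact ⟨⟨(w, y), hy⟩, rfl, rfl⟩

theorem three_faces [Finite W] (hG : ∀ w, (G.neighborSet w).ncard = 3) (w : W) {R : Rotation G}
    (hR : R.CircuitFaces) : 3 ≤ R.faces := by
  classical
  have hfin : Finite G.Dart := by
    have : Function.Injective (fun d : G.Dart => d.toProd) := fun d e h => by
      ext
      · exact congrArg Prod.fst h
      · exact congrArg Prod.snd h
    exact Finite.of_injective _ this
  have h3 : {d : G.Dart | d.fst = w}.ncard = 3 := by rw [ncard_darts, hG]
  obtain ⟨d, hd⟩ : {d : G.Dart | d.fst = w}.Nonempty := by
    rw [← Set.ncard_pos (Set.toFinite _), h3]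
    norm_num
  have hd : d.fst = w := hd
  have h1 : (R.next d).fst = w := by rw [R.fst_next, hd]
  have h2 : (R.next (R.next d)).fst = w := by rw [R.fst_next, h1]
  -- a subset closed under `next` containing `d` is everything
  have clo : ∀ S : Set G.Dart, d ∈ S → (∀ e, R.next e ∈ S ↔ e ∈ S) →
      {d : G.Dart | d.fst = w} ⊆ S := by
    intro S hS hc e he
    have h4 := R.cyclic d e (by rw [hd]; exact (show e.fst = w from he).symm)
    have h5 := same_inv (g := fun x => x ∈ S) (fun y => propext (hc y)) h4
    exact (show (d ∈ S) = (e ∈ S) from h5) ▸ hS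
  have n1 : R.next d ≠ d := by
    intro h
    have h4 := clo {d} rfl (fun e => by
      constructor
      · intro h5
        have h5 : R.next e = d := h5
        have h6 : R.next e = R.next d := by rw [h5, h]
        exact R.next.injective h6
      · intro h5
        have h5 : e = d := h5
        rw [h5]
        exact h)
    have h5 := Set.ncard_le_ncard h4 (Set.toFinite _)
    rw [h3, Set.ncard_singleton] at h5
    omega
  have n2 : R.next (R.next d) ≠ d := by
    intro h
    have h4 := clo {d, R.next d} (Set.mem_insert _ _) (fun e => by
      simp only [Set.mem_insert_iff, Set.mem_singleton_iff]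
      constructor
      · rintro (h5 | h5)
        · right
          have h6 : R.next e = R.next (R.next d) := by rw [h5, h]
          exact R.next.injective h6
        · left
          exact R.next.injective h5
      · rintro (h5 | h5)
        · right
          rw [h5]
        · left
          rw [h5, h])
    have h5 := Set.ncard_le_ncard h4 (Set.toFinite _)
    have h6 := Set.ncard_insert_le d {R.next d}
    rw [Set.ncard_singleton] at h6
    omega
  have n3 : R.next (R.next (R.next d)) = d := by
    have hs : ({d, R.next d, R.next (R.next d)} : Set G.Dart) = {d : G.Dart | d.fst = w} := by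
      refine Set.eq_of_subset_of_ncard_le ?_ ?_ (Set.toFinite _)
      · rintro e (rfl | rfl | rfl)
        · exact hd
        · exact h1
        · exact h2
      · rw [h3]
        have h6 : ({d, R.next d, R.next (R.next d)} : Set G.Dart).ncard = 3 := by
          rw [Set.ncard_eq_three]
          exact ⟨d, R.next d, R.next (R.next d), n1.symm, n2.symm,
            fun h => n1 (R.next.injective h.symm), rfl⟩
        rw [h6]
    have h7 : R.next (R.next (R.next d)) ∈ ({d, R.next d, R.next (R.next d)} : Set G.Dart) := by
      rw [hs]
      show (R.next (R.next (R.next d))).fst = w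
      rw [R.fst_next, h2]
    rcases h7 with h7 | h7 | h7
    · exact h7
    · exact absurd (R.next.injective h7) n2
    · exact absurd (R.next.injective (R.next.injective h7)) n1
  let q : G.Dart → Quotient (Equiv.Perm.SameCycle.setoid R.face) := Quotient.mk _
  have qne : ∀ e, q e ≠ q (R.next e) := by
    intro e h
    exact circ_next hR e (Quotient.exact h)
  let F : Fin 3 → Quotient (Equiv.Perm.SameCycle.setoid R.face) :=
    ![q d, q (R.next d), q (R.next (R.next d))]
  have hF : Function.Injective F := by
    have e1 := qne d
    have e2 := qne (R.next d)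
    have e3 := qne (R.next (R.next d))
    rw [n3] at e3
    intro i j hij
    fin_cases i <;> fin_cases j <;> first | rfl | skip
    · exact absurd hij e1
    · exact absurd hij e3.symm
    · exact absurd hij e1.symm
    · exact absurd hij e2
    · exact absurd hij e3
    · exact absurd hij e2.symm
  have h8 := Nat.card_le_card_of_injective F hF
  rw [Nat.card_eq_fintype_card, Fintype.card_fin] at h8
  exact h8

theorem two_edges [Finite W] (hG : ∀ w, (G.neighborSet w).ncard = 3) :
    2 * G.edgeSet.ncard = 3 * Nat.card W := by
  classical
  have := Fintype.ofFinite W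
  have h1 := G.sum_degrees_eq_twice_card_edges
  have h2 : ∀ w, G.degree w = 3 := by
    intro w
    rw [← hG w, Set.ncard_eq_toFinset_card', ← SimpleGraph.card_neighborFinset_eq_degree]
    rfl
  rw [Finset.sum_congr rfl (fun w _ => h2 w), Finset.sum_const, smul_eq_mul,
    Finset.card_univ] at h1
  rw [Nat.card_eq_fintype_card, Set.ncard_eq_toFinset_card' G.edgeSet]
  have h3 : G.edgeSet.toFinset.card = G.edgeFinset.card := by
    unfold SimpleGraph.edgeFinset
    rfl
  rw [h3]
  omega

theorem genus_eq [Finite W] (hG : ∀ w, (G.neighborSet w).ncard = 3) (R : Rotation G) :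
    R.genus = (2 + (Nat.card W : ℚ) / 2 - R.faces) / 2 := by
  have h1 := two_edges hG
  have h2 : (G.edgeSet.ncard : ℚ) = 3 * (Nat.card W : ℚ) / 2 := by
    have : (2 * G.edgeSet.ncard : ℚ) = 3 * (Nat.card W : ℚ) := by exact_mod_cast h1
    linarith
  unfold Rotation.genus
  rw [h2]
  ring

theorem genus_le [Finite W] (hG : ∀ w, (G.neighborSet w).ncard = 3) (w : W) {R : Rotation G}
    (hR : R.CircuitFaces) : R.genus ≤ ((Nat.card W : ℚ) - 2) / 4 := by
  have h1 := three_faces hG w hR
  have h2 : (3 : ℚ) ≤ R.faces := by exact_mod_cast h1
  rw [genus_eq hG]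
  linarith

end

end Pool.Agent.Helper53_SG
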