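import Pool.Agent.Helper53_SG.TriUp

/-!
# The family of graphs
-/

set_option autoImplicit false

namespace Pool.Agent.Helper53_SG

open Pool.Agent.Helper74_SE

section

variable {V : Type} {X : CG V} {hs : ∀ x i j, X.t i x = X.t j x → i = j}

theorem faces_eq {R : Rotation (gr X)} {s : V → Bool}
    (h : ∀ x i, R.next (dt X hs (x, i)) = dt X hs (x, i + st (s x))) : R.faces = nf X s := by
  symm
  refine Nat.card_congr (Quotient.congr (dt X hs) ?_)
  intro y z
  exact (same_iff h y z).symm

/-- the data of the graphs -/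
structure Good (n N : ℕ) (V : Type) [Fintype V] (X : CG V) : Prop where
  card : Fintype.card V = n
  cls : ∀ s, Circ X s → nf X s = N
  ex : ∃ s, Circ X s
  tor : ∃ s, n ≤ 2 * nf X s
  hc : HC X
  simple : ∀ x i j, X.t i x = X.t j x → i = j

theorem nf_le_three [Finite V] {v : V} (hm : Meets X v) {s : V → Bool} (hc : Circ X s) :
    nf X s ≤ 3 := by
  let F : Fin 3 → Quotient (Equiv.Perm.SameCycle.setoid (phi X s)) := fun i => qt X s (v, i)
  have hF : Function.Surjective F := by
    intro c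
    obtain ⟨y, rfl⟩ := Quotient.exists_rep c
    obtain ⟨i, hi⟩ := hm s hc y
    exact ⟨i, Quotient.sound hi.symm⟩
  have h8 := Nat.card_le_card_of_surjective F hF
  have e : Nat.card (Fin 3) = 3 := by simp
  rw [e] at h8
  exact h8

include hs in
theorem three_le_nf [Finite V] (v : V) {s : V → Bool} (hc : Circ X s) : 3 ≤ nf X s := by
  have h := rot_next X hs s
  have h1 := three_faces (gr_cubic X hs) v ((circ_iff h).2 hc)
  rw [faces_eq h] at h1
  exact h1

/-- the torus rotation -/
theorem tor_faces [Finite V] {v : V} {s : V → Bool} {Λ : Type} [Fintype Λ] {p : V × Fin 3 → Λ}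
    (h : TL X v s Λ p) : Fintype.card Λ ≤ nf X s + 1 := by
  classical
  have e0 : phi X s (X.t 0 v, 0) = (v, 1) := by
    rw [phi_apply, X.inv, h.sv]
    rfl
  have e2 : phi X s (X.t 2 v, 2) = (v, 0) := by
    rw [phi_apply, X.inv, h.sv]
    rfl
  by_cases hp : p (v, 0) = p (v, 1)
  · have h1 : ∀ y, p (phi X s y) = p y := by
      intro y
      by_cases h3 : y = (X.t 0 v, 0)
      · rw [h3, e0, h.zero, hp]
      · by_cases h4 : y = (X.t 2 v, 2)
        · rw [h4, e2, h.two, hp]
        · exact h.inv y h3 h4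
    have h5 := le_nf X s p h1 h.sur
    rw [Nat.card_eq_fintype_card] at h5
    omega
  · let p' : V × Fin 3 → {l : Λ // l ≠ p (v, 1)} := fun y =>
      if hy : p y = p (v, 1) then ⟨p (v, 0), hp⟩ else ⟨p y, hy⟩
    have g : ∀ y z, p y = p z → p' y = p' z := by
      intro y z hyz
      simp only [p', hyz]
    have g01 : p' (v, 0) = p' (v, 1) := by
      simp only [p', dif_neg hp, dif_pos]
    have h1 : ∀ y, p' (phi X s y) = p' y := by
      intro y
      by_cases h3 : y = (X.t 0 v, 0)
      · rw [h3, e0, ← g01]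
        exact g _ _ h.zero.symm
      · by_cases h4 : y = (X.t 2 v, 2)
        · rw [h4, e2, g01]
          exact g _ _ h.two.symm
        · exact g _ _ (h.inv y h3 h4)
    have h2 : Function.Surjective p' := by
      rintro ⟨l, hl⟩
      obtain ⟨y, rfl⟩ := h.sur l
      refine ⟨y, ?_⟩
      simp only [p', dif_neg hl]
    have h5 := le_nf X s p' h1 h2
    have h6 : Fintype.card {l : Λ // l ≠ p (v, 1)} = Fintype.card Λ - 1 := by
      rw [Fintype.card_subtype_compl, Fintype.card_subtype_eq]
    rw [Nat.card_eq_fintype_card, h6] at h5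
    omega

theorem good_base [Fintype V] {h : ℕ} {v : V} (S : Stage h V X v) (h1 : 1 ≤ h) :
    Good (4 * h + 2) 3 V X where
  card := S.card
  cls := by
    intro s hc
    exact le_antisymm (nf_le_three S.meets hc) (three_le_nf (hs := S.simple h1) v hc)
  ex := by
    obtain ⟨c, hc⟩ := S.cls
    exact ⟨_, circ_can X hc⟩
  tor := by
    obtain ⟨s, Λ, _, p, hΛ, hT⟩ := S.tl
    refine ⟨s, ?_⟩
    have h2 := tor_faces hT
    omega
  hc := by
    obtain ⟨c, hc⟩ := S.cls
    intro i T t1 t2 t3
    exact closed_triv X hc S.meets T i t1 t2 t3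
  simple := S.simple h1

theorem good_step [Fintype V] [DecidableEq V] {n N : ℕ} (S : Good n N V X) (v : V) :
    Good (n + 2) (N + 1) (V ⊕ Fin 2) (Tri X v) where
  card := by
    rw [Fintype.card_sum, S.card, Fintype.card_fin]
  cls := by
    intro s hc
    rw [nf_tri X v hc, S.cls _ (circ_dn X v s hc)]
  ex := by
    obtain ⟨s, hc⟩ := S.ex
    exact ⟨_, circ_up X v hc⟩
  tor := by
    obtain ⟨s, h1⟩ := S.tor
    refine ⟨sUp v s, ?_⟩
    have h2 := nf_up X v s
    omega
  hc := hc_tri X v S.hc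
  simple := tri_simple X v S.simple

end

theorem good_exists (h m : ℕ) (h1 : 1 ≤ h) : ∃ (V : Type) (_ : Fintype V) (_ : DecidableEq V)
    (X : CG V) (_ : V), Good (4 * h + 2 + 2 * m) (3 + m) V X := by
  induction m with
  | zero =>
    obtain ⟨V, _, _, X, v, S⟩ := stage_exists h
    exact ⟨V, inferInstance, inferInstance, X, v, good_base S h1⟩
  | succ m ih =>
    obtain ⟨V, _, _, X, v, S⟩ := ih
    exact ⟨V ⊕ Fin 2, inferInstance, inferInstance, Tri X v, Sum.inl v, good_step S v⟩

/-! ## Connectivity -/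

section

variable {V : Type} [Fintype V] (X : CG V)

theorem cut_two [DecidableEq V] (h : HC X) (S : Finset V) (h1 : S.Nonempty) (h2 : ∃ x, x ∉ S)
    (i : Fin 3) : 2 ≤ (S.filter fun x => X.t i x ∉ S).card
      + (S.filter fun x => X.t (i + 1) x ∉ S).card := by
  have p1 := cut_parity X S i
  have p2 := cut_parity X S (i + 1)
  have p3 : ((((S.filter fun x => X.t i x ∉ S).card
    + (S.filter fun x => X.t (i + 1) x ∉ S).card : ℕ)) : ZMod 2) = 0 := by
    rw [Nat.cast_add, p1, p2]
    exact CharTwo.add_self_eq_zero _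
  rw [ZMod.natCast_eq_zero_iff] at p3
  have p4 : 0 < (S.filter fun x => X.t i x ∉ S).card
    + (S.filter fun x => X.t (i + 1) x ∉ S).card := by
    by_contra hc
    have hc' : (S.filter fun x => X.t i x ∉ S).card = 0 ∧
      (S.filter fun x => X.t (i + 1) x ∉ S).card = 0 := by omega
    rw [Finset.card_eq_zero, Finset.card_eq_zero, Finset.filter_eq_empty_iff,
      Finset.filter_eq_empty_iff] at hc'
    obtain ⟨x, hx⟩ := h2
    refine hx ?_
    have h3 := h i (S : Set V)
      (fun y hy => by have := hc'.1 hy; rwa [not_not] at this)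
      (fun y hy => by have := hc'.2 hy; rwa [not_not] at this) h1 x
    exact h3
  obtain ⟨m, hm⟩ := p3
  omega

theorem cut_sigma [DecidableEq V] (h : HC X) (S : Finset V) (h1 : S.Nonempty)
    (h2 : ∃ x, x ∉ S) :
    3 ≤ (Finset.univ.sigma fun i : Fin 3 => S.filter fun x => X.t i x ∉ S).card := by
  rw [Finset.card_sigma, Fin.sum_univ_three]
  have k0 := cut_two X h S h1 h2 0
  have k1 := cut_two X h S h1 h2 1
  have k2 := cut_two X h S h1 h2 2
  have e1 : (0 : Fin 3) + 1 = 1 := rfl
  have e2 : (1 : Fin 3) + 1 = 2 := rfl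
  have e3 : (2 : Fin 3) + 1 = 0 := rfl
  rw [e1] at k0
  rw [e2] at k1
  rw [e3] at k2
  omega

theorem cut_edges (h : HC X) (hs : ∀ x i j, X.t i x = X.t j x → i = j) (S : Set V)
    (h1 : S.Nonempty) (h2 : ∃ x, x ∉ S) :
    3 ≤ {e ∈ (gr X).edgeSet | ∃ x ∈ S, ∃ y ∉ S, e = s(x, y)}.ncard := by
  classical
  have h3 := cut_sigma X h S.toFinset (by simpa using h1) (by simpa using h2)
  refine h3.trans ?_
  rw [← Set.ncard_coe_finset]
  refine Set.ncard_le_ncard_of_injOn (fun u : Σ _ : Fin 3, V => s(u.2, X.t u.1 u.2)) ?_ ?_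
    (Set.toFinite _)
  · rintro ⟨i, x⟩ hu
    simp only [Finset.coe_sigma, Finset.coe_univ, Finset.coe_filter, Set.mem_toFinset,
      Set.mem_sigma_iff, Set.mem_univ, true_and, Set.mem_ofPred_eq] at hu
    refine ⟨?_, x, hu.1, X.t i x, hu.2, rfl⟩
    rw [SimpleGraph.mem_edgeSet]
    exact ⟨i, rfl⟩
  · rintro ⟨i, x⟩ hu ⟨j, y⟩ hw huw
    simp only [Finset.coe_sigma, Finset.coe_univ, Finset.coe_filter, Set.mem_toFinset,
      Set.mem_sigma_iff, Set.mem_univ, true_and, Set.mem_ofPred_eq] at hu hw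
    have huw : s(x, X.t i x) = s(y, X.t j y) := huw
    rw [Sym2.eq_iff] at huw
    rcases huw with ⟨h4, h5⟩ | ⟨h4, h5⟩
    · subst h4
      have h6 := hs x i j h5
      subst h6
      rfl
    · exfalso
      refine hw.2 ?_
      rw [← h4]
      exact hu.1

omit [Fintype V] in
theorem gr_conn (h : HC X) (v : V) : (gr X).Connected := by
  have key : ∀ x, (gr X).Reachable v x := by
    intro x
    have g : ∀ i : Fin 3, ∀ y ∈ {y | (gr X).Reachable v y}, X.t i y ∈ {y | (gr X).Reachable v y} := by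
      intro i y hy
      have hy : (gr X).Reachable v y := hy
      have h1 : (gr X).Adj y (X.t i y) := ⟨i, rfl⟩
      exact hy.trans h1.reachable
    exact h 0 {y | (gr X).Reachable v y} (g 0) (g (0 + 1)) ⟨v, SimpleGraph.Reachable.refl _⟩ x
  have : Nonempty V := ⟨v⟩
  exact ⟨fun x y => (key x).symm.trans (key y)⟩

end

end Pool.Agent.Helper53_SG
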