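import Pool.Agent.Helper74_SE.Defs

/-!
# Three-edge-coloured cubic graphs, sign functions, and the replacement of a vertex by `K_{2,3}`

A rotation system of a cubic graph is a sign at every vertex.  Faces are the cycles of `phi`.
-/

set_option autoImplicit false

namespace Pool.Agent.Helper53_SG

/-- a cubic graph (parallel edges allowed) with a proper edge colouring with three colours: `t i x`
is the other end of the edge with colour `i` at `x` -/
structure CG (V : Type) where
  t : Fin 3 → V → V
  inv : ∀ i x, t i (t i x) = x
  ne : ∀ i x, t i x ≠ x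

/-- the two turns -/
def st (b : Bool) : Fin 3 := if b then 1 else 2

/-- face tracing; `(x, i)` is the oriented edge with source `x` and colour `i` -/
def phi {V : Type} (X : CG V) (s : V → Bool) : Equiv.Perm (V × Fin 3) where
  toFun y := (X.t y.2 y.1, y.2 + st (s (X.t y.2 y.1)))
  invFun y := (X.t (y.2 - st (s y.1)) y.1, y.2 - st (s y.1))
  left_inv y := by
    rcases y with ⟨x, i⟩
    simp only [add_sub_cancel_right, X.inv]
  right_inv y := by
    rcases y with ⟨x, i⟩
    simp only [X.inv, sub_add_cancel]

theorem phi_apply {V : Type} (X : CG V) (s : V → Bool) (x : V) (i : Fin 3) :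
    phi X s (x, i) = (X.t i x, i + st (s (X.t i x))) := rfl

/-- the reversed oriented edge -/
def rv {V : Type} (X : CG V) (y : V × Fin 3) : V × Fin 3 := (X.t y.2 y.1, y.2)

/-- no face traverses an edge twice -/
def Circ {V : Type} (X : CG V) (s : V → Bool) : Prop :=
  ∀ y, ¬ (phi X s).SameCycle y (rv X y)

/-! ## Inflation of a vertex -/

section Infl

variable {V : Type} [DecidableEq V] (X : CG V) (v : V)

/-- the three vertices of the new `K_{2,3}` with an outer edge: `cn i` has the outer edge of
colour `i` -/
def cn (i : Fin 3) : V ⊕ Fin 4 := if i = 0 then Sum.inl v else if i = 1 then Sum.inr 0 else Sum.inr 1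

/-- the neighbour maps of the inflated graph -/
def tI (i : Fin 3) : V ⊕ Fin 4 → V ⊕ Fin 4
  | Sum.inl x => if x = v then (if i = 0 then Sum.inl (X.t 0 v) else if i = 1 then Sum.inr 2
      else Sum.inr 3) else if X.t i x = v then cn v i else Sum.inl (X.t i x)
  | Sum.inr m => if m = 0 then (if i = 0 then Sum.inr 3 else if i = 1 then Sum.inl (X.t 1 v)
        else Sum.inr 2)
      else if m = 1 then (if i = 0 then Sum.inr 2 else if i = 1 then Sum.inr 3
        else Sum.inl (X.t 2 v))
      else if m = 2 then (if i = 0 then Sum.inr 1 else if i = 1 then Sum.inl v else Sum.inr 0)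
      else (if i = 0 then Sum.inr 0 else if i = 1 then Sum.inr 1 else Sum.inl v)

theorem tI_old {i : Fin 3} {x : V} (h1 : x ≠ v) (h2 : X.t i x ≠ v) :
    tI X v i (Sum.inl x) = Sum.inl (X.t i x) := by
  simp only [tI, if_neg h1, if_neg h2]

theorem tI_ext (i : Fin 3) : tI X v i (Sum.inl (X.t i v)) = cn v i := by
  simp only [tI, if_neg (X.ne i v), X.inv, if_true]

theorem tI_cn (i : Fin 3) : tI X v i (cn v i) = Sum.inl (X.t i v) := by
  fin_cases i <;> simp [cn, tI]

theorem tI_cn1 (i : Fin 3) : tI X v (i + 1) (cn v i) = Sum.inr 2 := by
  fin_cases i <;> simp [cn, tI]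

theorem tI_cn2 (i : Fin 3) : tI X v (i + 2) (cn v i) = Sum.inr 3 := by
  fin_cases i <;> simp [cn, tI]

theorem tI_d0 (k : Fin 3) : tI X v k (Sum.inr 2) = cn v (k - 1) := by
  fin_cases k <;> simp [cn, tI] <;> decide

theorem tI_d1 (k : Fin 3) : tI X v k (Sum.inr 3) = cn v (k - 2) := by
  fin_cases k <;> simp [cn, tI] <;> decide

theorem cn_ne {i j : Fin 3} (h : i ≠ j) : cn v i ≠ cn v j := by
  fin_cases i <;> fin_cases j <;> simp [cn] at h ⊢

/-- the inflated graph: the vertex `v` is replaced by `K_{2,3}` -/
def Inf : CG (V ⊕ Fin 4) where
  t := tI X v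
  inv := by
    intro i x
    rcases x with x | m
    · by_cases h1 : x = v
      · subst h1
        fin_cases i
        · have h := tI_ext X x 0
          have h' := tI_cn X x 0
          simp only [cn, if_true] at h h'
          show tI X x 0 (tI X x 0 (Sum.inl x)) = Sum.inl x
          rw [h', h]
        · have h : tI X x 1 (Sum.inl x) = Sum.inr 2 := by simp [tI]
          show tI X x 1 (tI X x 1 (Sum.inl x)) = Sum.inl x
          rw [h]; simp [tI]
        · have h : tI X x 2 (Sum.inl x) = Sum.inr 3 := by simp [tI]
          show tI X x 2 (tI X x 2 (Sum.inl x)) = Sum.inl x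
          rw [h]; simp [tI]
      · by_cases h2 : X.t i x = v
        · have h3 : x = X.t i v := by rw [← h2, X.inv]
          have h4 : tI X v i (Sum.inl x) = cn v i := by rw [h3]; exact tI_ext X v i
          rw [h4, tI_cn, ← h3]
        · rw [tI_old X v h1 h2]
          have h3 : X.t i (X.t i x) ≠ v := by rw [X.inv]; exact h1
          rw [tI_old X v h2 h3, X.inv]
    · fin_cases m
      · fin_cases i
        · simp [tI]
        · have h := tI_ext X v 1
          simpa [tI, cn] using h
        · simp [tI]
      · fin_cases i
        · simp [tI]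
        · simp [tI]
        · have h := tI_ext X v 2
          simpa [tI, cn] using h
      · fin_cases i <;> simp [tI]
      · fin_cases i <;> simp [tI]
  ne := by
    intro i x
    rcases x with x | m
    · by_cases h1 : x = v
      · subst h1
        fin_cases i
        · have h := X.ne 0 x
          simpa [tI] using h
        · simp [tI]
        · simp [tI]
      · by_cases h2 : X.t i x = v
        · have h3 : x = X.t i v := by rw [← h2, X.inv]
          have h4 : tI X v i (Sum.inl x) = cn v i := by rw [h3]; exact tI_ext X v i
          rw [h4]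
          fin_cases i
          · simp only [cn]
            intro h
            exact h1 (Sum.inl.inj h).symm
          · simp [cn]
          · simp [cn]
        · rw [tI_old X v h1 h2]
          intro h
          exact X.ne i x (Sum.inl.inj h)
    · fin_cases m <;> fin_cases i <;> simp [tI]

end Infl

end Pool.Agent.Helper53_SG
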