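import Pool.Agent.Helper53_SG.Infl

/-!
# Local analysis at an inflated vertex
-/

set_option autoImplicit false

namespace Pool.Agent.Helper53_SG

/-- local oriented edges: `E i` enters the new part with colour `i`, `C i k` leaves the vertex `i`
of degree three with an outer edge with the colour `k`, `D j k` leaves one of the two other vertices -/
inductive L
  | E (i : Fin 3)
  | C (i k : Fin 3)
  | D (j : Bool) (k : Fin 3)
deriving DecidableEq

/-- one step of face tracing inside the new part -/
def lstep (a : Fin 3 → Bool) (b0 b1 : Bool) : L → Option L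
  | L.E i => some (L.C i (i + st (a i)))
  | L.C i k => if k = i then none else if k = i + 1 then some (L.D false (k + st b0))
      else some (L.D true (k + st b1))
  | L.D false k => some (L.C (k - 1) (k + st (a (k - 1))))
  | L.D true k => some (L.C (k - 2) (k + st (a (k - 2))))

/-- reversal -/
def lrev : L → L
  | L.E i => L.C i i
  | L.C i k => if k = i then L.E i else if k = i + 1 then L.D false k else L.D true k
  | L.D false k => L.C (k - 1) k
  | L.D true k => L.C (k - 2) k

/-- `n` steps -/
def lpath (a : Fin 3 → Bool) (b0 b1 : Bool) : ℕ → L → Option L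
  | 0, y => some y
  | n + 1, y => (lstep a b0 b1 y).bind (lpath a b0 b1 n)

/-- the function with three given values -/
def f3 (p q r : Bool) : Fin 3 → Bool := fun i => if i = 0 then p else if i = 1 then q else r

theorem f3_eq (a : Fin 3 → Bool) : a = f3 (a 0) (a 1) (a 2) := by
  funext i
  fin_cases i <;> simp [f3]

theorem local_bad : ∀ a0 a1 a2 b0 b1 : Bool, (a0 = a1 ∧ a1 = a2 ∧ b0 = b1) ∨
    (∃ i, lpath (f3 a0 a1 a2) b0 b1 5 (L.E i) = some (lrev (L.E i))) ∨
    ∃ i k, lpath (f3 a0 a1 a2) b0 b1 5 (L.C i k) = some (lrev (L.C i k)) := by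
  decide

theorem local_pass : ∀ (a b : Bool) (i : Fin 3),
    lpath (f3 a a a) b b 5 (L.E i) = some (L.C (i + st (!b)) (i + st (!b))) := by
  decide

theorem local_cov : ∀ (a b : Bool) (i k : Fin 3), ∃ i' : Fin 3, ∃ n : Fin 6,
    lpath (f3 a a a) b b n (L.E i') = some (L.C i k) := by
  decide

theorem local_cov' : ∀ (a b j : Bool) (k : Fin 3), ∃ i' : Fin 3, ∃ n : Fin 6,
    lpath (f3 a a a) b b n (L.E i') = some (L.D j k) := by
  decide

theorem local_zero : ∀ (a b : Bool) (i : Fin 3), ∃ j : Fin 3, ∃ n : Fin 6,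
    lpath (f3 a a a) b b n (L.C 0 j) = some (L.C i i) := by
  decide

section

variable {V : Type} [DecidableEq V] (X : CG V) (v : V)

/-- the oriented edges of the inflated graph which belong to local ones -/
def emb : L → (V ⊕ Fin 4) × Fin 3
  | L.E i => (Sum.inl (X.t i v), i)
  | L.C i k => (cn v i, k)
  | L.D false k => (Sum.inr 2, k)
  | L.D true k => (Sum.inr 3, k)

theorem fin3_cases (i k : Fin 3) : k = i ∨ k = i + 1 ∨ k = i + 2 := by
  revert i k; decide

theorem ne1 (i : Fin 3) : i + 1 ≠ i := by revert i; decide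

theorem ne2 (i : Fin 3) : i + 2 ≠ i := by revert i; decide

theorem ne21 (i : Fin 3) : i + 2 ≠ i + 1 := by revert i; decide

theorem emb_rev (y : L) : rv (Inf X v) (emb X v y) = emb X v (lrev y) := by
  rcases y with i | ⟨i, k⟩ | ⟨j, k⟩
  · show (tI X v i (Sum.inl (X.t i v)), i) = (cn v i, i)
    rw [tI_ext]
  · rcases fin3_cases i k with h | h | h
    · subst h
      show (tI X v k (cn v k), k) = emb X v (lrev (L.C k k))
      rw [tI_cn]
      simp [lrev, emb]
    · subst h
      show (tI X v (i + 1) (cn v i), i + 1) = emb X v (lrev (L.C i (i + 1)))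
      rw [tI_cn1]
      simp [lrev, emb]
    · subst h
      show (tI X v (i + 2) (cn v i), i + 2) = emb X v (lrev (L.C i (i + 2)))
      rw [tI_cn2]
      have h1 := ne2 i
      have h2 := ne21 i
      simp only [lrev, if_neg h1, if_neg h2, emb]
  · cases j
    · show (tI X v k (Sum.inr 2), k) = (cn v (k - 1), k)
      rw [tI_d0]
    · show (tI X v k (Sum.inr 3), k) = (cn v (k - 2), k)
      rw [tI_d1]

theorem emb_step (s : V ⊕ Fin 4 → Bool) (y z : L)
    (h : lstep (fun i => s (cn v i)) (s (Sum.inr 2)) (s (Sum.inr 3)) y = some z) :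
    phi (Inf X v) s (emb X v y) = emb X v z := by
  rcases y with i | ⟨i, k⟩ | ⟨j, k⟩
  · simp only [lstep, Option.some.injEq] at h
    subst h
    show (tI X v i (Sum.inl (X.t i v)), i + st (s (tI X v i (Sum.inl (X.t i v))))) = _
    rw [tI_ext]
    rfl
  · rcases fin3_cases i k with h' | h' | h'
    · subst h'
      simp [lstep] at h
    · subst h'
      have h1 := ne1 i
      simp only [lstep, if_neg h1, if_true, Option.some.injEq] at h
      subst h
      show (tI X v (i + 1) (cn v i), i + 1 + st (s (tI X v (i + 1) (cn v i)))) = _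
      rw [tI_cn1]
      rfl
    · subst h'
      have h1 := ne2 i
      have h2 := ne21 i
      simp only [lstep, if_neg h1, if_neg h2, Option.some.injEq] at h
      subst h
      show (tI X v (i + 2) (cn v i), i + 2 + st (s (tI X v (i + 2) (cn v i)))) = _
      rw [tI_cn2]
      rfl
  · cases j
    · simp only [lstep, Option.some.injEq] at h
      subst h
      show (tI X v k (Sum.inr 2), k + st (s (tI X v k (Sum.inr 2)))) = _
      rw [tI_d0]
      rfl
    · simp only [lstep, Option.some.injEq] at h
      subst h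
      show (tI X v k (Sum.inr 3), k + st (s (tI X v k (Sum.inr 3)))) = _
      rw [tI_d1]
      rfl

theorem emb_path (s : V ⊕ Fin 4 → Bool) (n : ℕ) (y z : L)
    (h : lpath (fun i => s (cn v i)) (s (Sum.inr 2)) (s (Sum.inr 3)) n y = some z) :
    (phi (Inf X v) s).SameCycle (emb X v y) (emb X v z) := by
  induction n generalizing y with
  | zero =>
    simp only [lpath, Option.some.injEq] at h
    subst h
    exact Equiv.Perm.SameCycle.refl _ _
  | succ n ih =>
    simp only [lpath, Option.bind_eq_some_iff] at h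
    obtain ⟨u, hu, hz⟩ := h
    have h1 := ih u hz
    rw [← emb_step X v s y u hu] at h1
    exact (Equiv.Perm.sameCycle_apply_left.1 h1)

/-! ## The main step -/

/-- the oriented edges of the old graph in the new one -/
def prj (y : V × Fin 3) : (V ⊕ Fin 4) × Fin 3 :=
  if y.1 = v then (cn v y.2, y.2) else (Sum.inl y.1, y.2)

/-- the signs of the old graph: the vertex `v` gets the sign opposite to the one of the two inner
vertices -/
def sOld (s : V ⊕ Fin 4 → Bool) (x : V) : Bool :=
  if x = v then !(s (Sum.inr 2)) else s (Sum.inl x)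

theorem prj_self (i : Fin 3) : prj v (v, i) = (cn v i, i) := by
  simp only [prj, if_true]

theorem prj_ne {x : V} (h : x ≠ v) (i : Fin 3) : prj v (x, i) = (Sum.inl x, i) := by
  simp only [prj, if_neg h]

theorem prj_rv (y : V × Fin 3) : rv (Inf X v) (prj v y) = prj v (rv X y) := by
  rcases y with ⟨x, i⟩
  show rv (Inf X v) (prj v (x, i)) = prj v (X.t i x, i)
  by_cases h1 : x = v
  · subst h1
    rw [prj_self, prj_ne x (X.ne i x)]
    show (tI X x i (cn x i), i) = _
    rw [tI_cn]
  · rw [prj_ne v h1]
    by_cases h2 : X.t i x = v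
    · have h3 : x = X.t i v := by rw [← h2, X.inv]
      rw [h2, prj_self]
      show (tI X v i (Sum.inl x), i) = _
      rw [h3, tI_ext]
    · rw [prj_ne v h2]
      show (tI X v i (Sum.inl x), i) = _
      rw [tI_old X v h1 h2]

/-- a sign function whose faces are circuits is constant on the two classes of the new vertices -/
theorem circ_const (s : V ⊕ Fin 4 → Bool) (hs : Circ (Inf X v) s) :
    (∀ i, s (cn v i) = s (cn v 0)) ∧ s (Sum.inr 2) = s (Sum.inr 3) := by
  have key := local_bad (s (cn v 0)) (s (cn v 1)) (s (cn v 2)) (s (Sum.inr 2)) (s (Sum.inr 3))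
  rw [← f3_eq (fun i => s (cn v i))] at key
  rcases key with ⟨h1, h2, h3⟩ | ⟨i, hi⟩ | ⟨i, k, hi⟩
  · refine ⟨fun i => ?_, h3⟩
    fin_cases i
    · rfl
    · exact h1.symm
    · exact (h1.trans h2).symm
  · have h := emb_path X v s 5 _ _ hi
    rw [← emb_rev] at h
    exact absurd h (hs _)
  · have h := emb_path X v s 5 _ _ hi
    rw [← emb_rev] at h
    exact absurd h (hs _)

variable (s : V ⊕ Fin 4 → Bool)

theorem f3_const {s : V ⊕ Fin 4 → Bool} (h : ∀ i, s (cn v i) = s (cn v 0)) :
    (fun i => s (cn v i)) = f3 (s (cn v 0)) (s (cn v 0)) (s (cn v 0)) := by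
  rw [f3_eq (fun i => s (cn v i)), h 1, h 2]

theorem step_old (h1 : ∀ i, s (cn v i) = s (cn v 0)) (h2 : s (Sum.inr 2) = s (Sum.inr 3))
    (y : V × Fin 3) :
    (phi (Inf X v) s).SameCycle (prj v y) (prj v (phi X (sOld v s) y)) := by
  rcases y with ⟨x, i⟩
  rw [phi_apply]
  by_cases hx : x = v
  · subst hx
    have h3 : X.t i x ≠ x := X.ne i x
    have e : phi (Inf X x) s (prj x (x, i))
        = prj x (X.t i x, i + st (sOld x s (X.t i x))) := by
      simp only [prj, if_true, if_neg h3, sOld]
      show (tI X x i (cn x i), i + st (s (tI X x i (cn x i)))) = _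
      rw [tI_cn]
    rw [← e]
    exact Equiv.Perm.sameCycle_apply_right.2 (Equiv.Perm.SameCycle.refl _ _)
  · by_cases h3 : X.t i x = v
    · have h4 : x = X.t i v := by rw [← h3, X.inv]
      have e1 : prj v (x, i) = emb X v (L.E i) := by
        simp only [prj, if_neg hx, emb]
        rw [← h4]
      have e2 : prj v (X.t i x, i + st (sOld v s (X.t i x)))
          = emb X v (L.C (i + st (!(s (Sum.inr 2)))) (i + st (!(s (Sum.inr 2))))) := by
        simp only [prj, h3, if_true, sOld, emb]
      rw [e1, e2]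
      refine emb_path X v s 5 _ _ ?_
      rw [f3_const v h1, ← h2]
      exact local_pass _ _ i
    · have e : phi (Inf X v) s (prj v (x, i))
          = prj v (X.t i x, i + st (sOld v s (X.t i x))) := by
        simp only [prj, if_neg hx, if_neg h3, sOld]
        show (tI X v i (Sum.inl x), i + st (s (tI X v i (Sum.inl x)))) = _
        rw [tI_old X v hx h3]
      rw [← e]
      exact Equiv.Perm.sameCycle_apply_right.2 (Equiv.Perm.SameCycle.refl _ _)

theorem same_old (h1 : ∀ i, s (cn v i) = s (cn v 0)) (h2 : s (Sum.inr 2) = s (Sum.inr 3))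
    {y z : V × Fin 3} (h : (phi X (sOld v s)).SameCycle y z) :
    (phi (Inf X v) s).SameCycle (prj v y) (prj v z) := by
  obtain ⟨n, rfl⟩ := h
  induction n using Int.induction_on with
  | zero => simp only [zpow_zero, Equiv.Perm.coe_one, id_eq]; exact Equiv.Perm.SameCycle.refl _ _
  | succ n ih =>
    rw [add_comm, zpow_add, zpow_one, Equiv.Perm.mul_apply]
    exact ih.trans (step_old X v s h1 h2 _)
  | pred n ih =>
    refine ih.trans ?_
    have h3 := step_old X v s h1 h2 (((phi X (sOld v s)) ^ (-(n : ℤ) - 1)) y)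
    have h4 : phi X (sOld v s) (((phi X (sOld v s)) ^ (-(n : ℤ) - 1)) y)
        = ((phi X (sOld v s)) ^ (-(n : ℤ))) y := by
      rw [← Equiv.Perm.mul_apply, ← zpow_one_add]
      congr 2
      ring
    rw [h4] at h3
    exact h3.symm

theorem circ_old (hs : Circ (Inf X v) s) : Circ X (sOld v s) := by
  obtain ⟨h1, h2⟩ := circ_const X v s hs
  intro y hy
  have h := same_old X v s h1 h2 hy
  rw [← prj_rv] at h
  exact hs _ h

/-- every face of a circuit-face rotation meets the vertex `v` -/
def Meets (X : CG V) (v : V) : Prop :=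
  ∀ s, Circ X s → ∀ y, ∃ i, (phi X s).SameCycle y (v, i)

theorem cover (h1 : ∀ i, s (cn v i) = s (cn v 0)) (h2 : s (Sum.inr 2) = s (Sum.inr 3))
    (z : (V ⊕ Fin 4) × Fin 3) : ∃ y, (phi (Inf X v) s).SameCycle (prj v y) z := by
  have hE : ∀ i, emb X v (L.E i) = prj v (X.t i v, i) := by
    intro i
    simp only [prj, if_neg (X.ne i v), emb]
  have hC : ∀ i k, ∃ y, (phi (Inf X v) s).SameCycle (prj v y) (emb X v (L.C i k)) := by
    intro i k
    obtain ⟨i', n, hn⟩ := local_cov (s (cn v 0)) (s (Sum.inr 2)) i k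
    refine ⟨(X.t i' v, i'), ?_⟩
    rw [← hE]
    refine emb_path X v s n _ _ ?_
    rw [f3_const v h1, ← h2]
    exact hn
  have hD : ∀ j k, ∃ y, (phi (Inf X v) s).SameCycle (prj v y) (emb X v (L.D j k)) := by
    intro j k
    obtain ⟨i', n, hn⟩ := local_cov' (s (cn v 0)) (s (Sum.inr 2)) j k
    refine ⟨(X.t i' v, i'), ?_⟩
    rw [← hE]
    refine emb_path X v s n _ _ ?_
    rw [f3_const v h1, ← h2]
    exact hn
  rcases z with ⟨x | m, k⟩
  · by_cases hx : x = v
    · subst hx
      exact hC 0 k
    · refine ⟨(x, k), ?_⟩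
      simp only [prj, if_neg hx]
      exact Equiv.Perm.SameCycle.refl _ _
  · fin_cases m
    · exact hC 1 k
    · exact hC 2 k
    · exact hD false k
    · exact hD true k

theorem meets_inf (h : Meets X v) : Meets (Inf X v) (Sum.inl v) := by
  intro s hs z
  obtain ⟨h1, h2⟩ := circ_const X v s hs
  obtain ⟨y, hy⟩ := cover X v s h1 h2 z
  obtain ⟨i, hi⟩ := h (sOld v s) (circ_old X v s hs) y
  have h3 := same_old X v s h1 h2 hi
  obtain ⟨j, n, hn⟩ := local_zero (s (cn v 0)) (s (Sum.inr 2)) i
  have h4 : (phi (Inf X v) s).SameCycle (emb X v (L.C 0 j)) (emb X v (L.C i i)) := by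
    refine emb_path X v s n _ _ ?_
    rw [f3_const v h1, ← h2]
    exact hn
  refine ⟨j, ?_⟩
  have e : prj v (v, i) = emb X v (L.C i i) := by
    simp only [prj, if_true, emb]
  rw [e] at h3
  exact (hy.symm.trans h3).trans h4.symm

end

end Pool.Agent.Helper53_SG
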