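import Pool.Agent.Helper53_SG.Tor

/-!
# The graphs `G_h`, the cut property
-/

set_option autoImplicit false

namespace Pool.Agent.Helper53_SG

/-- the graph with two vertices and three edges -/
def theta : CG Bool where
  t := fun _ x => !x
  inv := by intro i x; simp
  ne := by intro i x; cases x <;> simp

/-- the data of the graph `G_h` -/
structure Stage (h : ℕ) (V : Type) [Fintype V] (X : CG V) (v : V) : Prop where
  card : Fintype.card V = 4 * h + 2
  meets : Meets X v
  cls : ∃ c : V → Bool, ∀ i x, c (X.t i x) = !(c x)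
  tl : ∃ (s : V → Bool) (Λ : Type) (_ : Fintype Λ) (p : V × Fin 3 → Λ),
    Fintype.card Λ = 2 * h + 2 ∧ TL X v s Λ p
  sim : Sim X v
  simple : 1 ≤ h → ∀ x i j, X.t i x = X.t j x → i = j

theorem stage_zero : Stage 0 Bool theta true where
  card := by simp
  meets := by
    rintro s - ⟨x, i⟩
    cases x
    · refine ⟨i + st (s true), ?_⟩
      have e : phi theta s (false, i) = (true, i + st (s true)) := rfl
      rw [← e]
      exact Equiv.Perm.sameCycle_apply_right.2 (Equiv.Perm.SameCycle.refl _ _)
    · exact ⟨i, Equiv.Perm.SameCycle.refl _ _⟩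
  cls := ⟨id, fun i x => rfl⟩
  tl := by
    refine ⟨fun _ => true, Bool, inferInstance,
      fun y => (y = (true, 1)) || (y = (false, 2)), by simp, ?_⟩
    refine ⟨rfl, ?_, ?_, ?_, ?_⟩
    · intro b
      cases b
      · exact ⟨(true, 0), by decide⟩
      · exact ⟨(true, 1), by decide⟩
    · decide
    · decide
    · decide
  sim := by
    intro x hx i j _ h2
    cases x
    · exact absurd rfl h2
    · exact absurd rfl hx
  simple := by intro h; omega

theorem stage_succ {h : ℕ} {V : Type} [Fintype V] [DecidableEq V] {X : CG V} {v : V}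
    (S : Stage h V X v) : Stage (h + 1) (V ⊕ Fin 4) (Inf X v) (Sum.inl v) where
  card := by
    rw [Fintype.card_sum, S.card, Fintype.card_fin]
    ring
  meets := meets_inf X v S.meets
  cls := by
    obtain ⟨c, hc⟩ := S.cls
    exact ⟨cNew v c, cls_inf X v hc⟩
  tl := by
    obtain ⟨s, Λ, _, p, h1, h2⟩ := S.tl
    refine ⟨sNew s, Λ ⊕ Bool, inferInstance, pNew v p, ?_, tl_inf X v h2⟩
    rw [Fintype.card_sum, h1, Fintype.card_bool]
    ring
  sim := by
    intro x _ i j hij _
    exact sim_inf X v S.sim x i j hij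
  simple := fun _ => sim_inf X v S.sim

theorem stage_exists (h : ℕ) : ∃ (V : Type) (_ : Fintype V) (_ : DecidableEq V) (X : CG V) (v : V),
    Stage h V X v := by
  induction h with
  | zero => exact ⟨Bool, inferInstance, inferInstance, theta, true, stage_zero⟩
  | succ h ih =>
    obtain ⟨V, _, _, X, v, S⟩ := ih
    exact ⟨V ⊕ Fin 4, inferInstance, inferInstance, Inf X v, Sum.inl v, stage_succ S⟩

/-! ## The canonical rotation of a bipartite coloured graph: the faces are the two-coloured cycles -/

section

variable {V : Type} (X : CG V)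

/-- the pair of colours of the face of an oriented edge -/
def lab (c : V → Bool) (y : V × Fin 3) : Fin 3 := if c y.1 then y.2 else y.2 - 1

theorem lab_phi {c : V → Bool} (h : ∀ i x, c (X.t i x) = !(c x)) (y : V × Fin 3) :
    lab c (phi X (fun x => !(c x)) y) = lab c y := by
  rcases y with ⟨x, i⟩
  rw [phi_apply]
  simp only [lab, h, Bool.not_not]
  cases c x
  · revert i; simp [st]; decide
  · revert i; simp [st]

theorem same_inv {α β : Type} {f : Equiv.Perm α} {g : α → β} (h : ∀ y, g (f y) = g y) {y z : α}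
    (hyz : f.SameCycle y z) : g y = g z := by
  obtain ⟨n, rfl⟩ := hyz
  induction n using Int.induction_on with
  | zero => simp
  | succ n ih =>
    rw [add_comm, zpow_add, zpow_one, Equiv.Perm.mul_apply, h]
    exact ih
  | pred n ih =>
    rw [ih]
    have h4 : f ((f ^ (-(n : ℤ) - 1)) y) = (f ^ (-(n : ℤ))) y := by
      rw [← Equiv.Perm.mul_apply, ← zpow_one_add]
      congr 2
      ring
    rw [← h4, h]

theorem circ_can {c : V → Bool} (h : ∀ i x, c (X.t i x) = !(c x)) :
    Circ X (fun x => !(c x)) := by
  rintro ⟨x, i⟩ hy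
  have h1 := same_inv (lab_phi X h) hy
  simp only [lab, rv, h] at h1
  have h2 : i - 1 ≠ i := by
    clear h1 hy
    revert i
    decide
  revert h1
  cases c x
  · simp [h2]
  · simp [h2.symm]

theorem lab_v {c : V → Bool} {v : V} {i j : Fin 3} (h : lab c (v, i) = lab c (v, j)) : i = j := by
  simp only [lab] at h
  cases hc : c v
  · rw [hc] at h
    simpa using h
  · rw [hc] at h
    simpa using h

/-- with `Meets` every two-coloured subgraph is a single cycle -/
theorem same_of_lab {c : V → Bool} (h : ∀ i x, c (X.t i x) = !(c x)) {v : V} (hm : Meets X v)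
    {y z : V × Fin 3} (hyz : lab c y = lab c z) :
    (phi X (fun x => !(c x))).SameCycle y z := by
  obtain ⟨i, hi⟩ := hm _ (circ_can X h) y
  obtain ⟨j, hj⟩ := hm _ (circ_can X h) z
  have h1 := same_inv (lab_phi X h) hi
  have h2 := same_inv (lab_phi X h) hj
  have h3 : i = j := lab_v (h1.symm.trans (hyz.trans h2))
  subst h3
  exact hi.trans hj.symm

/-- a set closed under two colours is trivial -/
theorem closed_triv {c : V → Bool} (h : ∀ i x, c (X.t i x) = !(c x)) {v : V} (hm : Meets X v)
    (S : Set V) (i : Fin 3) (h1 : ∀ x ∈ S, X.t i x ∈ S) (h2 : ∀ x ∈ S, X.t (i + 1) x ∈ S)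
    (hS : S.Nonempty) : ∀ x, x ∈ S := by
  have g1 : ∀ x, X.t i x ∈ S ↔ x ∈ S := fun x =>
    ⟨fun hx => by have := h1 _ hx; rwa [X.inv] at this, h1 x⟩
  have g2 : ∀ x, X.t (i + 1) x ∈ S ↔ x ∈ S := fun x =>
    ⟨fun hx => by have := h2 _ hx; rwa [X.inv] at this, h2 x⟩
  let e : V → V × Fin 3 := fun x => if c x then (x, i) else (x, i + 1)
  have e1 : ∀ x, lab c (e x) = i := by
    intro x
    simp only [e, lab]
    cases hc : c x <;> simp [hc]
  have e2 : ∀ x, (e x).1 = x := by
    intro x
    simp only [e]
    cases c x <;> simp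
  have key : ∀ y, lab c y = i → ((phi X (fun x => !(c x)) y).1 ∈ S ↔ y.1 ∈ S) := by
    rintro ⟨x, k⟩ hk
    rw [phi_apply]
    simp only [lab] at hk
    cases hc : c x
    · rw [hc] at hk
      have h3 : k = i + 1 := by rw [← hk]; simp
      subst h3
      exact g2 x
    · rw [hc] at hk
      have h3 : k = i := by simpa using hk
      subst h3
      exact g1 x
  obtain ⟨x0, hx0⟩ := hS
  intro x
  have hs : (phi X (fun x => !(c x))).SameCycle (e x0) (e x) :=
    same_of_lab X h hm ((e1 x0).trans (e1 x).symm)
  let g : V × Fin 3 → Prop := fun y => lab c y = i → y.1 ∈ S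
  have hg : ∀ y, g (phi X (fun x => !(c x)) y) = g y := by
    intro y
    simp only [g, lab_phi X h]
    apply propext
    constructor
    · intro h3 h4
      exact (key y h4).1 (h3 h4)
    · intro h3 h4
      exact (key y h4).2 (h3 h4)
  have h5 := same_inv hg hs
  have h6 : g (e x0) := by
    intro _
    rw [e2]
    exact hx0
  rw [h5] at h6
  have h7 := h6 (e1 x)
  rw [e2] at h7
  exact h7

/-- parity of the number of edges of one colour in a cut -/
theorem cut_parity [Fintype V] [DecidableEq V] (S : Finset V) (i : Fin 3) :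
    ((S.filter fun x => X.t i x ∉ S).card : ZMod 2) = (S.card : ZMod 2) := by
  have h1 : ((S.filter fun x => X.t i x ∈ S).card : ZMod 2) = 0 := by
    rw [Finset.card_eq_sum_ones, Nat.cast_sum]
    refine Finset.sum_involution (fun x _ => X.t i x) ?_ ?_ ?_ ?_
    · intro x _
      decide
    · intro x _ _
      exact X.ne i x
    · intro x hx
      rw [Finset.mem_filter] at hx ⊢
      exact ⟨hx.2, by rw [X.inv]; exact hx.1⟩
    · intro x _
      exact X.inv i x
  have h2 := Finset.card_filter_add_card_filter_not (s := S) (fun x => X.t i x ∈ S)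
  have h3 : (S.card : ZMod 2) = ((S.filter fun x => X.t i x ∈ S).card : ZMod 2)
      + ((S.filter fun x => X.t i x ∉ S).card : ZMod 2) := by
    rw [← Nat.cast_add, h2]
  rw [h3, h1, zero_add]

theorem cut_three [Fintype V] [DecidableEq V] {c : V → Bool} (h : ∀ i x, c (X.t i x) = !(c x))
    {v : V} (hm : Meets X v) (S : Finset V) (h1 : S.Nonempty) (h2 : ∃ x, x ∉ S) :
    3 ≤ (S.filter fun x => X.t 0 x ∉ S).card + (S.filter fun x => X.t 1 x ∉ S).card
      + (S.filter fun x => X.t 2 x ∉ S).card := by
  have key : ∀ i, 2 ≤ (S.filter fun x => X.t i x ∉ S).card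
      + (S.filter fun x => X.t (i + 1) x ∉ S).card := by
    intro i
    have p1 := cut_parity X S i
    have p2 := cut_parity X S (i + 1)
    have p3 : ((((S.filter fun x => X.t i x ∉ S).card
      + (S.filter fun x => X.t (i + 1) x ∉ S).card : ℕ)) : ZMod 2) = 0 := by
      rw [Nat.cast_add, p1, p2]
      exact CharTwo.add_self_eq_zero _
    rw [ZMod.natCast_eq_zero_iff] at p3
    have p4 : 0 < (S.filter fun x => X.t i x ∉ S).card
      + (S.filter fun x => X.t (i + 1) x ∉ S).card := by
      by_contra hc
      have hc' : (S.filter fun x => X.t i x ∉ S).card = 0 ∧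
        (S.filter fun x => X.t (i + 1) x ∉ S).card = 0 := by omega
      rw [Finset.card_eq_zero, Finset.card_eq_zero, Finset.filter_eq_empty_iff,
        Finset.filter_eq_empty_iff] at hc'
      obtain ⟨x, hx⟩ := h2
      refine hx ?_
      have h3 := closed_triv X h hm (S : Set V) i
        (fun y hy => by have := hc'.1 hy; rwa [not_not] at this)
        (fun y hy => by have := hc'.2 hy; rwa [not_not] at this) h1 x
      exact h3
    obtain ⟨m, hm⟩ := p3
    omega
  have k0 := key 0
  have k1 := key 1
  have k2 := key 2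
  have e1 : (0 : Fin 3) + 1 = 1 := rfl
  have e2 : (1 : Fin 3) + 1 = 2 := rfl
  have e3 : (2 : Fin 3) + 1 = 0 := rfl
  rw [e1] at k0
  rw [e2] at k1
  rw [e3] at k2
  omega

end

end Pool.Agent.Helper53_SG
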