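import Pool.Agent.Helper53_SG.Loc

/-!
# The torus rotation, the two classes, simplicity, and the induction
-/

set_option autoImplicit false

namespace Pool.Agent.Helper53_SG

theorem snd_ne {α : Type} {x y : α} {i j : Fin 3} (h : i ≠ j) : (x, i) ≠ (y, j) :=
  fun e => h (congrArg Prod.snd e)

/-- labels of the faces of the graph without the edge of colour `0` at `v` -/
structure TL {V : Type} (X : CG V) (v : V) (s : V → Bool) (Λ : Type) (p : V × Fin 3 → Λ) :
    Prop where
  sv : s v = true
  sur : Function.Surjective p
  zero : p (X.t 0 v, 0) = p (v, 0)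
  two : p (X.t 2 v, 2) = p (v, 1)
  inv : ∀ y, y ≠ (X.t 0 v, 0) → y ≠ (X.t 2 v, 2) → p (phi X s y) = p y

section

variable {V : Type} [DecidableEq V] (X : CG V) (v : V)

/-- the signs of the new vertices -/
def sNew (s : V → Bool) : V ⊕ Fin 4 → Bool
  | Sum.inl x => s x
  | Sum.inr m => if m = 0 then true else if m = 1 then false else if m = 2 then true else false

/-- the labels of the new oriented edges -/
def pNew {Λ : Type} (p : V × Fin 3 → Λ) : (V ⊕ Fin 4) × Fin 3 → Λ ⊕ Bool
  | (Sum.inl x, i) => if x = v then (if i = 0 then Sum.inl (p (v, 0)) else if i = 1 then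
      Sum.inr true else Sum.inr false) else Sum.inl (p (x, i))
  | (Sum.inr m, i) =>
      if m = 0 then (if i = 0 then Sum.inr true else if i = 1 then Sum.inl (p (v, 1))
        else Sum.inl (p (v, 2)))
      else if m = 1 then (if i = 0 then Sum.inr false else if i = 1 then Sum.inl (p (v, 1))
        else Sum.inl (p (v, 2)))
      else if m = 2 then (if i = 0 then Sum.inl (p (v, 2)) else if i = 1 then Sum.inr false
        else Sum.inr true)
      else (if i = 0 then Sum.inl (p (v, 1)) else if i = 1 then Sum.inr false
        else Sum.inr true)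

theorem tl_inf {s : V → Bool} {Λ : Type} {p : V × Fin 3 → Λ} (h : TL X v s Λ p) :
    TL (Inf X v) (Sum.inl v) (sNew s) (Λ ⊕ Bool) (pNew v p) := by
  have hne : ∀ i, X.t i v ≠ v := fun i => X.ne i v
  refine ⟨h.sv, ?_, ?_, ?_, ?_⟩
  · rintro (l | b)
    · obtain ⟨⟨x, i⟩, rfl⟩ := h.sur l
      by_cases hx : x = v
      · subst hx
        fin_cases i
        · exact ⟨(Sum.inl x, 0), by simp [pNew]⟩
        · exact ⟨(Sum.inr 0, 1), by simp [pNew]⟩
        · exact ⟨(Sum.inr 0, 2), by simp [pNew]⟩
      · exact ⟨(Sum.inl x, i), by simp [pNew, hx]⟩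
    · cases b
      · exact ⟨(Sum.inl v, 2), by simp [pNew]⟩
      · exact ⟨(Sum.inl v, 1), by simp [pNew]⟩
  · show pNew v p (tI X v 0 (Sum.inl v), 0) = _
    simp only [tI, if_true, pNew, if_neg (hne 0), h.zero]
  · show pNew v p (tI X v 2 (Sum.inl v), 2) = _
    simp [tI, pNew]
  · rintro ⟨x | m, i⟩ h0 h2
    · by_cases hx : x = v
      · subst hx
        fin_cases i
        · have e : phi (Inf X x) (sNew s) (Sum.inl x, 0) = (Sum.inl (X.t 0 x), 0 + st (s (X.t 0 x))) := by
            show (tI X x 0 (Sum.inl x), 0 + st (sNew s (tI X x 0 (Sum.inl x)))) = _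
            simp [tI, sNew]
          have h3 : p (phi X s (x, 0)) = p (x, 0) := by
            refine h.inv _ ?_ ?_
            · intro h4
              exact hne 0 (congrArg Prod.fst h4).symm
            · intro h4
              exact snd_ne (by decide) h4
          show pNew x p (phi (Inf X x) (sNew s) (Sum.inl x, 0)) = pNew x p (Sum.inl x, 0)
          rw [e]
          simp only [pNew, if_neg (hne 0), if_true]
          rw [← h3]
          rfl
        · show pNew x p (tI X x 1 (Sum.inl x), 1 + st (sNew s (tI X x 1 (Sum.inl x)))) = pNew x p (Sum.inl x, 1)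
          simp [tI, sNew, st, pNew]
        · show pNew x p (tI X x 2 (Sum.inl x), 2 + st (sNew s (tI X x 2 (Sum.inl x)))) = pNew x p (Sum.inl x, 2)
          simp [tI, sNew, st, pNew]
      · by_cases h3 : X.t i x = v
        · have h4 : x = X.t i v := by rw [← h3, X.inv]
          have e : phi (Inf X v) (sNew s) (Sum.inl x, i)
              = (cn v i, i + st (sNew s (cn v i))) := by
            show (tI X v i (Sum.inl x), i + st (sNew s (tI X v i (Sum.inl x)))) = _
            rw [h4, tI_ext]
          rw [e]
          subst h4
          fin_cases i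
          · exfalso
            refine h0 ?_
            show (Sum.inl (X.t 0 v), (0 : Fin 3)) = (tI X v 0 (Sum.inl v), 0)
            simp [tI]
          · have h5 : p (phi X s (X.t 1 v, 1)) = p (X.t 1 v, 1) := by
              refine h.inv _ ?_ ?_
              · intro h4
                exact snd_ne (by decide) h4
              · intro h4
                exact snd_ne (by decide) h4
            have h6 : phi X s (X.t 1 v, 1) = (v, 2) := by
              rw [phi_apply, X.inv, h.sv]; rfl
            rw [h6] at h5
            have h7 := hne 1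
            simp [cn, sNew, st, pNew, h7, h5]
          · have h7 := hne 2
            have h8 := h.two
            simp [cn, sNew, st, pNew, h7, h8]
        · have e : phi (Inf X v) (sNew s) (Sum.inl x, i)
              = (Sum.inl (X.t i x), i + st (s (X.t i x))) := by
            show (tI X v i (Sum.inl x), i + st (sNew s (tI X v i (Sum.inl x)))) = _
            rw [tI_old X v hx h3]
            rfl
          rw [e]
          simp only [pNew, if_neg hx, if_neg h3]
          congr 1
          refine h.inv (x, i) ?_ ?_
          · intro h4
            have h5 : x = X.t 0 v := congrArg Prod.fst h4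
            have h6 : i = 0 := congrArg Prod.snd h4
            subst h6
            exact h3 (by rw [h5, X.inv])
          · intro h4
            have h5 : x = X.t 2 v := congrArg Prod.fst h4
            have h6 : i = 2 := congrArg Prod.snd h4
            subst h6
            exact h3 (by rw [h5, X.inv])
    · have hv1 : p (phi X s (v, 1)) = p (v, 1) := by
        refine h.inv _ ?_ ?_
        · intro h4
          exact snd_ne (by decide) h4
        · intro h4
          exact snd_ne (by decide) h4
      have hv2 : p (phi X s (v, 2)) = p (v, 2) := by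
        refine h.inv _ ?_ ?_
        · intro h4
          exact snd_ne (by decide) h4
        · intro h4
          exact hne 2 (congrArg Prod.fst h4).symm
      rw [phi_apply] at hv1 hv2
      have h1 := hne 1
      have h2' := hne 2
      fin_cases m
      · fin_cases i
        · show pNew v p (tI X v 0 (Sum.inr 0), 0 + st (sNew s (tI X v 0 (Sum.inr 0)))) = pNew v p (Sum.inr 0, 0)
          simp [tI, sNew, st, pNew]
        · show pNew v p (tI X v 1 (Sum.inr 0), 1 + st (sNew s (tI X v 1 (Sum.inr 0)))) = pNew v p (Sum.inr 0, 1)
          simp [tI, sNew, pNew, h1, hv1]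
        · show pNew v p (tI X v 2 (Sum.inr 0), 2 + st (sNew s (tI X v 2 (Sum.inr 0)))) = pNew v p (Sum.inr 0, 2)
          simp [tI, sNew, st, pNew]
      · fin_cases i
        · show pNew v p (tI X v 0 (Sum.inr 1), 0 + st (sNew s (tI X v 0 (Sum.inr 1)))) = pNew v p (Sum.inr 1, 0)
          simp [tI, sNew, st, pNew]
        · show pNew v p (tI X v 1 (Sum.inr 1), 1 + st (sNew s (tI X v 1 (Sum.inr 1)))) = pNew v p (Sum.inr 1, 1)
          simp [tI, sNew, st, pNew]
        · show pNew v p (tI X v 2 (Sum.inr 1), 2 + st (sNew s (tI X v 2 (Sum.inr 1)))) = pNew v p (Sum.inr 1, 2)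
          simp [tI, sNew, pNew, h2', hv2]
      · fin_cases i
        · show pNew v p (tI X v 0 (Sum.inr 2), 0 + st (sNew s (tI X v 0 (Sum.inr 2)))) = pNew v p (Sum.inr 2, 0)
          simp [tI, sNew, st, pNew]
        · show pNew v p (tI X v 1 (Sum.inr 2), 1 + st (sNew s (tI X v 1 (Sum.inr 2)))) = pNew v p (Sum.inr 2, 1)
          simp [tI, sNew, st, pNew, h.sv]
        · show pNew v p (tI X v 2 (Sum.inr 2), 2 + st (sNew s (tI X v 2 (Sum.inr 2)))) = pNew v p (Sum.inr 2, 2)
          simp [tI, sNew, st, pNew]
      · fin_cases i
        · show pNew v p (tI X v 0 (Sum.inr 3), 0 + st (sNew s (tI X v 0 (Sum.inr 3)))) = pNew v p (Sum.inr 3, 0)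
          simp [tI, sNew, st, pNew]
        · show pNew v p (tI X v 1 (Sum.inr 3), 1 + st (sNew s (tI X v 1 (Sum.inr 3)))) = pNew v p (Sum.inr 3, 1)
          simp [tI, sNew, st, pNew]
        · exfalso
          refine h2 ?_
          show (Sum.inr 3, (2 : Fin 3)) = (tI X v 2 (Sum.inl v), 2)
          simp [tI]

/-- the two classes of the new graph -/
def cNew (c : V → Bool) : V ⊕ Fin 4 → Bool
  | Sum.inl x => c x
  | Sum.inr m => if m = 0 then c v else if m = 1 then c v else !(c v)

theorem cls_inf {c : V → Bool} (h : ∀ i x, c (X.t i x) = !(c x)) :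
    ∀ i x, cNew v c ((Inf X v).t i x) = !(cNew v c x) := by
  rintro i (x | m)
  · by_cases hx : x = v
    · subst hx
      show cNew x c (tI X x i (Sum.inl x)) = _
      have h0 := h 0 x
      fin_cases i <;> simp [tI, cNew, h0]
    · by_cases h3 : X.t i x = v
      · have h4 := h i x
        rw [h3] at h4
        show cNew v c (tI X v i (Sum.inl x)) = _
        have e : tI X v i (Sum.inl x) = cn v i := by
          have h5 : x = X.t i v := by rw [← h3, X.inv]
          rw [h5, tI_ext]
        rw [e]
        fin_cases i <;> simp [cn, cNew, h4]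
      · show cNew v c (tI X v i (Sum.inl x)) = _
        rw [tI_old X v hx h3]
        exact h i x
  · have h1 := h 1 v
    have h2 := h 2 v
    show cNew v c (tI X v i (Sum.inr m)) = _
    fin_cases m <;> fin_cases i <;> simp [tI, cNew, h1, h2]

/-- different colours give different neighbours, except possibly for the neighbours of `v` -/
def Sim (X : CG V) (v : V) : Prop :=
  ∀ x, x ≠ v → ∀ i j, X.t i x = X.t j x → X.t i x ≠ v → i = j

theorem sim_inf (h : Sim X v) : ∀ x i j, (Inf X v).t i x = (Inf X v).t j x → i = j := by
  rintro (x | m) i j hij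
  · change tI X v i (Sum.inl x) = tI X v j (Sum.inl x) at hij
    by_cases hx : x = v
    · subst hx
      fin_cases i <;> fin_cases j <;> simp [tI] at hij ⊢
    · by_cases hi : X.t i x = v
      · have ei : tI X v i (Sum.inl x) = cn v i := by
          have h5 : x = X.t i v := by rw [← hi, X.inv]
          rw [h5, tI_ext]
        by_cases hj : X.t j x = v
        · have ej : tI X v j (Sum.inl x) = cn v j := by
            have h5 : x = X.t j v := by rw [← hj, X.inv]
            rw [h5, tI_ext]
          rw [ei, ej] at hij
          by_contra hne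
          exact cn_ne v hne hij
        · rw [ei, tI_old X v hx hj] at hij
          exfalso
          fin_cases i
          · simp only [cn] at hij
            exact hj (Sum.inl.inj hij).symm
          · simp [cn] at hij
          · simp [cn] at hij
      · rw [tI_old X v hx hi] at hij
        by_cases hj : X.t j x = v
        · have ej : tI X v j (Sum.inl x) = cn v j := by
            have h5 : x = X.t j v := by rw [← hj, X.inv]
            rw [h5, tI_ext]
          rw [ej] at hij
          exfalso
          fin_cases j
          · simp only [cn] at hij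
            exact hi (Sum.inl.inj hij)
          · simp [cn] at hij
          · simp [cn] at hij
        · rw [tI_old X v hx hj] at hij
          exact h x hx i j (Sum.inl.inj hij) hi
  · change tI X v i (Sum.inr m) = tI X v j (Sum.inr m) at hij
    fin_cases m <;> fin_cases i <;> fin_cases j <;> simp [tI] at hij ⊢

end

end Pool.Agent.Helper53_SG
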