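import Pool.Agent.Helper53_SG.Conv

/-!
# Replacement of a vertex by a triangle
-/

set_option autoImplicit false

namespace Pool.Agent.Helper53_SG

/-- the number of faces of a sign function -/
noncomputable def nf {V : Type} (X : CG V) (s : V → Bool) : ℕ :=
  Nat.card (Quotient (Equiv.Perm.SameCycle.setoid (phi X s)))

section Tri

variable {V : Type} [DecidableEq V] (X : CG V) (v : V)

/-- the vertices of the new triangle; `tn i` has the outer edge of colour `i` -/
def tn (i : Fin 3) : V ⊕ Fin 2 := if i = 0 then Sum.inl v else if i = 1 then Sum.inr 0 else Sum.inr 1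

/-- the neighbour maps -/
def tT (i : Fin 3) : V ⊕ Fin 2 → V ⊕ Fin 2
  | Sum.inl x => if x = v then (if i = 0 then Sum.inl (X.t 0 v) else if i = 1 then Sum.inr 1
      else Sum.inr 0) else if X.t i x = v then tn v i else Sum.inl (X.t i x)
  | Sum.inr m => if m = 0 then (if i = 0 then Sum.inr 1 else if i = 1 then Sum.inl (X.t 1 v)
        else Sum.inl v)
      else (if i = 0 then Sum.inr 0 else if i = 1 then Sum.inl v else Sum.inl (X.t 2 v))

theorem tT_old {i : Fin 3} {x : V} (h1 : x ≠ v) (h2 : X.t i x ≠ v) :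
    tT X v i (Sum.inl x) = Sum.inl (X.t i x) := by
  simp only [tT, if_neg h1, if_neg h2]

theorem tT_ext (i : Fin 3) : tT X v i (Sum.inl (X.t i v)) = tn v i := by
  simp only [tT, if_neg (X.ne i v), X.inv, if_true]

theorem tT_tn (i : Fin 3) : tT X v i (tn v i) = Sum.inl (X.t i v) := by
  fin_cases i <;> simp [tn, tT]

theorem tT_tn1 (i : Fin 3) : tT X v (i + 1) (tn v i) = tn v (i + 2) := by
  fin_cases i <;> simp [tn, tT]

theorem tT_tn2 (i : Fin 3) : tT X v (i + 2) (tn v i) = tn v (i + 1) := by
  fin_cases i <;> simp [tn, tT]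

omit [DecidableEq V] in
theorem tn_ne {i j : Fin 3} (h : i ≠ j) : tn v i ≠ tn v j := by
  fin_cases i <;> fin_cases j <;> simp [tn] at h ⊢

omit [DecidableEq V] in
theorem tn_inl {x : V} (hx : x ≠ v) (i : Fin 3) : tn v i ≠ Sum.inl x := by
  fin_cases i
  · simp only [tn]
    intro h
    exact hx (Sum.inl.inj h).symm
  · simp [tn]
  · simp [tn]

/-- every vertex of the new graph is old or in the triangle -/
theorem tri_cases (z : V ⊕ Fin 2) : (∃ x, x ≠ v ∧ z = Sum.inl x) ∨ ∃ i, z = tn v i := by
  rcases z with x | m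
  · by_cases hx : x = v
    · right
      exact ⟨0, by rw [hx]; rfl⟩
    · left
      exact ⟨x, hx, rfl⟩
  · right
    fin_cases m
    · exact ⟨1, rfl⟩
    · exact ⟨2, rfl⟩

theorem three_cases (i k : Fin 3) : k = i ∨ k = i + 1 ∨ k = i + 2 := by
  revert i k; decide

theorem a22 (j : Fin 3) : j + 2 + 2 = j + 1 := by revert j; decide

theorem a21 (j : Fin 3) : j + 2 + 1 = j := by revert j; decide

theorem a11 (j : Fin 3) : j + 1 + 1 = j + 2 := by revert j; decide

theorem a12 (j : Fin 3) : j + 1 + 2 = j := by revert j; decide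

theorem tT_inv (i : Fin 3) (z : V ⊕ Fin 2) : tT X v i (tT X v i z) = z := by
  rcases tri_cases v z with ⟨x, hx, rfl⟩ | ⟨j, rfl⟩
  · by_cases h2 : X.t i x = v
    · have h3 : x = X.t i v := by rw [← h2, X.inv]
      rw [h3, tT_ext, tT_tn]
    · have h3 : X.t i (X.t i x) ≠ v := by rw [X.inv]; exact hx
      rw [tT_old X v hx h2, tT_old X v h2 h3, X.inv]
  · rcases three_cases j i with h | h | h
    · subst h
      rw [tT_tn, tT_ext]
    · subst h
      rw [tT_tn1]
      have h4 := tT_tn2 X v (j + 2)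
      rw [a22, a21] at h4
      exact h4
    · subst h
      rw [tT_tn2]
      have h4 := tT_tn1 X v (j + 1)
      rw [a11, a12] at h4
      exact h4

/-- the graph with the vertex `v` replaced by a triangle -/
def Tri : CG (V ⊕ Fin 2) where
  t := tT X v
  inv := tT_inv X v
  ne := by
    intro i z
    rcases tri_cases v z with ⟨x, hx, rfl⟩ | ⟨j, rfl⟩
    · by_cases h2 : X.t i x = v
      · have h3 : x = X.t i v := by rw [← h2, X.inv]
        have h4 : tT X v i (Sum.inl x) = tn v i := by rw [h3]; exact tT_ext X v i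
        rw [h4]
        exact tn_inl v hx i
      · rw [tT_old X v hx h2]
        intro h
        exact X.ne i x (Sum.inl.inj h)
    · rcases three_cases j i with h | h | h
      · subst h
        rw [tT_tn]
        exact (tn_inl v (X.ne i v) i).symm
      · subst h
        rw [tT_tn1]
        exact tn_ne v (ne2 j)
      · subst h
        rw [tT_tn2]
        exact tn_ne v (ne1 j)

theorem tri_simple (hs : ∀ x i j, X.t i x = X.t j x → i = j) :
    ∀ z i j, (Tri X v).t i z = (Tri X v).t j z → i = j := by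
  intro z i j hij
  change tT X v i z = tT X v j z at hij
  rcases tri_cases v z with ⟨x, hx, rfl⟩ | ⟨k, rfl⟩
  · have g : ∀ l, tT X v l (Sum.inl x) = if X.t l x = v then tn v l else Sum.inl (X.t l x) := by
      intro l
      simp only [tT, if_neg hx]
    rw [g, g] at hij
    by_cases h1 : X.t i x = v
    · rw [if_pos h1] at hij
      by_cases h2 : X.t j x = v
      · exact hs x i j (h1.trans h2.symm)
      · rw [if_neg h2] at hij
        exact absurd hij (tn_inl v h2 i)
    · rw [if_neg h1] at hij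
      by_cases h2 : X.t j x = v
      · rw [if_pos h2] at hij
        exact absurd hij.symm (tn_inl v h1 j)
      · rw [if_neg h2] at hij
        exact hs x i j (Sum.inl.inj hij)
  · have hk : ∀ l, tn v l ≠ Sum.inl (X.t k v) := fun l => tn_inl v (X.ne k v) l
    have e12 : k + 1 ≠ k + 2 := fun h => ne21 k h.symm
    rcases three_cases k i with h | h | h <;> rcases three_cases k j with h' | h' | h'
    · rw [h, h']
    · rw [h, h', tT_tn, tT_tn1] at hij
      exact absurd hij.symm (hk _)
    · rw [h, h', tT_tn, tT_tn2] at hij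
      exact absurd hij.symm (hk _)
    · rw [h, h', tT_tn, tT_tn1] at hij
      exact absurd hij (hk _)
    · rw [h, h']
    · rw [h, h', tT_tn1, tT_tn2] at hij
      exact absurd hij (tn_ne v e12.symm)
    · rw [h, h', tT_tn, tT_tn2] at hij
      exact absurd hij (hk _)
    · rw [h, h', tT_tn1, tT_tn2] at hij
      exact absurd hij (tn_ne v e12)
    · rw [h, h']

/-- every set closed under two colours is trivial -/
def HC {V : Type} (X : CG V) : Prop :=
  ∀ (i : Fin 3) (S : Set V), (∀ x ∈ S, X.t i x ∈ S) → (∀ x ∈ S, X.t (i + 1) x ∈ S) →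
    S.Nonempty → ∀ x, x ∈ S

theorem hc_tri (h : HC X) : HC (Tri X v) := by
  intro i S h1 h2 hS
  change ∀ z ∈ S, tT X v i z ∈ S at h1
  change ∀ z ∈ S, tT X v (i + 1) z ∈ S at h2
  have a1 : tn v (i + 1) ∈ S ↔ tn v (i + 2) ∈ S := by
    have e := tT_tn2 X v (i + 1)
    have e' := tT_tn1 X v (i + 2)
    rw [a12, a11] at e
    rw [a21, a22] at e'
    exact ⟨fun hx => by have := h1 _ hx; rwa [e] at this,
      fun hx => by have := h1 _ hx; rwa [e'] at this⟩
  have a2 : tn v i ∈ S ↔ tn v (i + 2) ∈ S := by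
    have e := tT_tn1 X v i
    have e' := tT_tn2 X v (i + 2)
    rw [a21, a22] at e'
    exact ⟨fun hx => by have := h2 _ hx; rwa [e] at this,
      fun hx => by have := h2 _ hx; rwa [e'] at this⟩
  have a3 : ∀ j, tn v j ∈ S ↔ Sum.inl v ∈ S := by
    have g : ∀ j k, tn v j ∈ S → tn v k ∈ S := by
      intro j k hj
      have h5 : tn v (i + 2) ∈ S := by
        rcases three_cases i j with h | h | h
        · rw [h] at hj
          exact a2.1 hj
        · rw [h] at hj
          exact a1.1 hj
        · rwa [h] at hj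
      rcases three_cases i k with h | h | h
      · rw [h]
        exact a2.2 h5
      · rw [h]
        exact a1.2 h5
      · rwa [h]
    intro j
    exact ⟨g j 0, g 0 j⟩
  have b : ∀ l : Fin 3, (∀ z ∈ S, tT X v l z ∈ S) →
      ∀ x ∈ {x : V | (Sum.inl x : V ⊕ Fin 2) ∈ S}, X.t l x ∈ {x : V | (Sum.inl x : V ⊕ Fin 2) ∈ S} := by
    intro l hl x hx
    have hx : (Sum.inl x : V ⊕ Fin 2) ∈ S := hx
    show (Sum.inl (X.t l x) : V ⊕ Fin 2) ∈ S
    by_cases hxv : x = v
    · subst hxv
      have h5 : tn x l ∈ S := (a3 l).2 hx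
      have h6 := hl _ h5
      rwa [tT_tn] at h6
    · by_cases h2' : X.t l x = v
      · rw [h2']
        have h5 := hl _ hx
        have h3 : x = X.t l v := by rw [← h2', X.inv]
        rw [h3, tT_ext] at h5
        exact (a3 l).1 h5
      · have h5 := hl _ hx
        rwa [tT_old X v hxv h2'] at h5
  have hne : {x : V | (Sum.inl x : V ⊕ Fin 2) ∈ S}.Nonempty := by
    obtain ⟨z, hz⟩ := hS
    rcases tri_cases v z with ⟨x, hx, rfl⟩ | ⟨j, rfl⟩
    · exact ⟨x, hz⟩
    · exact ⟨v, (a3 j).1 hz⟩
  have all := h i _ (b i h1) (b (i + 1) h2) hne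
  intro z
  rcases tri_cases v z with ⟨x, hx, rfl⟩ | ⟨j, rfl⟩
  · exact all x
  · exact (a3 j).2 (all v)

end Tri

end Pool.Agent.Helper53_SG
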