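import Pool.Agent.Helper53_SG.Tri

/-!
# Local analysis at a triangle
-/

set_option autoImplicit false

namespace Pool.Agent.Helper53_SG

/-- local oriented edges at the triangle: `E i` enters with colour `i`, `T i k` leaves the vertex
`i` of the triangle with colour `k` -/
inductive M
  | E (i : Fin 3)
  | T (i k : Fin 3)
deriving DecidableEq

/-- one step of face tracing -/
def mstep (a : Fin 3 → Bool) : M → Option M
  | M.E i => some (M.T i (i + st (a i)))
  | M.T i k => if k = i then none else if k = i + 1 then some (M.T (i + 2) (k + st (a (i + 2))))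
      else some (M.T (i + 1) (k + st (a (i + 1))))

/-- reversal -/
def mrev : M → M
  | M.E i => M.T i i
  | M.T i k => if k = i then M.E i else if k = i + 1 then M.T (i + 2) k else M.T (i + 1) k

/-- `n` steps -/
def mpath (a : Fin 3 → Bool) : ℕ → M → Option M
  | 0, y => some y
  | n + 1, y => (mstep a y).bind (mpath a n)

theorem tri_bad : ∀ a0 a1 a2 : Bool, (a0 = a1 ∧ a1 = a2) ∨
    ∃ i, mpath (f3 a0 a1 a2) 4 (M.E i) = some (mrev (M.E i)) := by
  decide

theorem tri_pass : ∀ (a : Bool) (i : Fin 3),
    mpath (f3 a a a) 2 (M.E i) = some (M.T (i + st (!a)) (i + st (!a))) := by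
  decide

theorem tri_cov : ∀ (a : Bool) (i k : Fin 3), (∃ i' : Fin 3, ∃ n : Fin 3,
    mpath (f3 a a a) n (M.E i') = some (M.T i k)) ∨
    ∃ n : Fin 3, mpath (f3 a a a) n (M.T 0 (st (!a))) = some (M.T i k) := by
  decide

section

variable {V : Type} [DecidableEq V] (X : CG V) (v : V)

/-- the oriented edges of the new graph which belong to local ones -/
def embT : M → (V ⊕ Fin 2) × Fin 3
  | M.E i => (Sum.inl (X.t i v), i)
  | M.T i k => (tn v i, k)

theorem embT_rev (y : M) : rv (Tri X v) (embT X v y) = embT X v (mrev y) := by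
  rcases y with i | ⟨i, k⟩
  · show (tT X v i (Sum.inl (X.t i v)), i) = (tn v i, i)
    rw [tT_ext]
  · rcases three_cases i k with h | h | h
    · subst h
      show (tT X v k (tn v k), k) = embT X v (mrev (M.T k k))
      rw [tT_tn]
      simp [mrev, embT]
    · subst h
      show (tT X v (i + 1) (tn v i), i + 1) = embT X v (mrev (M.T i (i + 1)))
      rw [tT_tn1]
      simp [mrev, embT]
    · subst h
      show (tT X v (i + 2) (tn v i), i + 2) = embT X v (mrev (M.T i (i + 2)))
      rw [tT_tn2]
      have h1 := ne2 i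
      have h2 := ne21 i
      simp only [mrev, if_neg h1, if_neg h2, embT]

theorem embT_step (s : V ⊕ Fin 2 → Bool) (y z : M)
    (h : mstep (fun i => s (tn v i)) y = some z) :
    phi (Tri X v) s (embT X v y) = embT X v z := by
  rcases y with i | ⟨i, k⟩
  · simp only [mstep, Option.some.injEq] at h
    subst h
    show (tT X v i (Sum.inl (X.t i v)), i + st (s (tT X v i (Sum.inl (X.t i v))))) = _
    rw [tT_ext]
    rfl
  · rcases three_cases i k with h' | h' | h'
    · subst h'
      simp [mstep] at h
    · subst h'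
      have h1 := ne1 i
      simp only [mstep, if_neg h1, if_true, Option.some.injEq] at h
      subst h
      show (tT X v (i + 1) (tn v i), i + 1 + st (s (tT X v (i + 1) (tn v i)))) = _
      rw [tT_tn1]
      rfl
    · subst h'
      have h1 := ne2 i
      have h2 := ne21 i
      simp only [mstep, if_neg h1, if_neg h2, Option.some.injEq] at h
      subst h
      show (tT X v (i + 2) (tn v i), i + 2 + st (s (tT X v (i + 2) (tn v i)))) = _
      rw [tT_tn2]
      rfl

theorem embT_path (s : V ⊕ Fin 2 → Bool) (n : ℕ) (y z : M)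
    (h : mpath (fun i => s (tn v i)) n y = some z) :
    (phi (Tri X v) s).SameCycle (embT X v y) (embT X v z) := by
  induction n generalizing y with
  | zero =>
    simp only [mpath, Option.some.injEq] at h
    subst h
    exact Equiv.Perm.SameCycle.refl _ _
  | succ n ih =>
    simp only [mpath, Option.bind_eq_some_iff] at h
    obtain ⟨u, hu, hz⟩ := h
    have h1 := ih u hz
    rw [← embT_step X v s y u hu] at h1
    exact (Equiv.Perm.sameCycle_apply_left.1 h1)

/-- the old oriented edges in the new graph -/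
def prjT (y : V × Fin 3) : (V ⊕ Fin 2) × Fin 3 :=
  if y.1 = v then (tn v y.2, y.2) else (Sum.inl y.1, y.2)

/-- the signs of the old graph -/
def sDn (s : V ⊕ Fin 2 → Bool) (x : V) : Bool :=
  if x = v then !(s (Sum.inl v)) else s (Sum.inl x)

theorem prjT_self (i : Fin 3) : prjT v (v, i) = (tn v i, i) := by
  simp only [prjT, if_true]

theorem prjT_ne {x : V} (h : x ≠ v) (i : Fin 3) : prjT v (x, i) = (Sum.inl x, i) := by
  simp only [prjT, if_neg h]

theorem prjT_rv (y : V × Fin 3) : rv (Tri X v) (prjT v y) = prjT v (rv X y) := by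
  rcases y with ⟨x, i⟩
  show rv (Tri X v) (prjT v (x, i)) = prjT v (X.t i x, i)
  by_cases h1 : x = v
  · subst h1
    rw [prjT_self, prjT_ne x (X.ne i x)]
    show (tT X x i (tn x i), i) = _
    rw [tT_tn]
  · rw [prjT_ne v h1]
    by_cases h2 : X.t i x = v
    · have h3 : x = X.t i v := by rw [← h2, X.inv]
      rw [h2, prjT_self]
      show (tT X v i (Sum.inl x), i) = _
      rw [h3, tT_ext]
    · rw [prjT_ne v h2]
      show (tT X v i (Sum.inl x), i) = _
      rw [tT_old X v h1 h2]

/-- the signs at the three vertices of the triangle are equal -/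
theorem tri_const (s : V ⊕ Fin 2 → Bool) (hs : Circ (Tri X v) s) :
    ∀ i, s (tn v i) = s (Sum.inl v) := by
  have key := tri_bad (s (tn v 0)) (s (tn v 1)) (s (tn v 2))
  rw [← f3_eq (fun i => s (tn v i))] at key
  rcases key with ⟨h1, h2⟩ | ⟨i, hi⟩
  · intro i
    fin_cases i
    · rfl
    · exact h1.symm
    · exact (h1.trans h2).symm
  · have h := embT_path X v s 4 _ _ hi
    rw [← embT_rev] at h
    exact absurd h (hs _)

theorem f3T {s : V ⊕ Fin 2 → Bool} (h : ∀ i, s (tn v i) = s (Sum.inl v)) :
    (fun i => s (tn v i)) = f3 (s (Sum.inl v)) (s (Sum.inl v)) (s (Sum.inl v)) := by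
  rw [f3_eq (fun i => s (tn v i)), h 0, h 1, h 2]

variable (s : V ⊕ Fin 2 → Bool)

theorem stepT (h1 : ∀ i, s (tn v i) = s (Sum.inl v)) (y : V × Fin 3) :
    (phi (Tri X v) s).SameCycle (prjT v y) (prjT v (phi X (sDn v s) y)) := by
  rcases y with ⟨x, i⟩
  rw [phi_apply]
  by_cases hx : x = v
  · subst hx
    have h3 : X.t i x ≠ x := X.ne i x
    have e : phi (Tri X x) s (prjT x (x, i))
        = prjT x (X.t i x, i + st (sDn x s (X.t i x))) := by
      simp only [prjT, if_true, if_neg h3, sDn]
      show (tT X x i (tn x i), i + st (s (tT X x i (tn x i)))) = _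
      rw [tT_tn]
    rw [← e]
    exact Equiv.Perm.sameCycle_apply_right.2 (Equiv.Perm.SameCycle.refl _ _)
  · by_cases h3 : X.t i x = v
    · have h4 : x = X.t i v := by rw [← h3, X.inv]
      have e1 : prjT v (x, i) = embT X v (M.E i) := by
        simp only [prjT, if_neg hx, embT]
        rw [← h4]
      have e2 : prjT v (X.t i x, i + st (sDn v s (X.t i x)))
          = embT X v (M.T (i + st (!(s (Sum.inl v)))) (i + st (!(s (Sum.inl v))))) := by
        simp only [prjT, h3, if_true, sDn, embT]
      rw [e1, e2]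
      refine embT_path X v s 2 _ _ ?_
      rw [f3T v h1]
      exact tri_pass _ i
    · have e : phi (Tri X v) s (prjT v (x, i))
          = prjT v (X.t i x, i + st (sDn v s (X.t i x))) := by
        simp only [prjT, if_neg hx, if_neg h3, sDn]
        show (tT X v i (Sum.inl x), i + st (s (tT X v i (Sum.inl x)))) = _
        rw [tT_old X v hx h3]
      rw [← e]
      exact Equiv.Perm.sameCycle_apply_right.2 (Equiv.Perm.SameCycle.refl _ _)

theorem sameT (h1 : ∀ i, s (tn v i) = s (Sum.inl v)) {y z : V × Fin 3}
    (h : (phi X (sDn v s)).SameCycle y z) :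
    (phi (Tri X v) s).SameCycle (prjT v y) (prjT v z) := by
  have h2 := same_inv (f := phi X (sDn v s))
    (g := fun u => (phi (Tri X v) s).SameCycle (prjT v y) (prjT v u)) (by
      intro u
      apply propext
      constructor
      · intro h3
        exact h3.trans (stepT X v s h1 u).symm
      · intro h3
        exact h3.trans (stepT X v s h1 u)) h
  have h3 : (phi (Tri X v) s).SameCycle (prjT v y) (prjT v y) := Equiv.Perm.SameCycle.refl _ _
  exact h2 ▸ h3

theorem circ_dn (hs : Circ (Tri X v) s) : Circ X (sDn v s) := by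
  intro y hy
  have h := sameT X v s (tri_const X v s hs) hy
  rw [← prjT_rv] at h
  exact hs _ h

theorem coverT (h1 : ∀ i, s (tn v i) = s (Sum.inl v)) (z : (V ⊕ Fin 2) × Fin 3) :
    (∃ y, (phi (Tri X v) s).SameCycle (prjT v y) z) ∨
      (phi (Tri X v) s).SameCycle (Sum.inl v, st (!(s (Sum.inl v)))) z := by
  have hE : ∀ i, embT X v (M.E i) = prjT v (X.t i v, i) := by
    intro i
    simp only [prjT, if_neg (X.ne i v), embT]
  rcases z with ⟨z, k⟩
  rcases tri_cases v z with ⟨x, hx, rfl⟩ | ⟨i, rfl⟩
  · left
    refine ⟨(x, k), ?_⟩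
    rw [prjT_ne v hx]
  · rcases tri_cov (s (Sum.inl v)) i k with ⟨i', n, hn⟩ | ⟨n, hn⟩
    · left
      refine ⟨(X.t i' v, i'), ?_⟩
      rw [← hE]
      refine embT_path X v s n _ (M.T i k) ?_
      rw [f3T v h1]
      exact hn
    · right
      refine embT_path X v s n (M.T 0 _) (M.T i k) ?_
      rw [f3T v h1]
      exact hn

end

end Pool.Agent.Helper53_SG
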