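import Pool.Agent.Helper53_SG.TriLoc

/-!
# The number of faces after the replacement of a vertex by a triangle
-/

set_option autoImplicit false

namespace Pool.Agent.Helper53_SG

section

variable {V : Type}

theorem le_nf [Finite V] (X : CG V) (s : V → Bool) {Λ : Type} (p : V × Fin 3 → Λ)
    (hp : ∀ y, p (phi X s y) = p y) (hsur : Function.Surjective p) : Nat.card Λ ≤ nf X s := by
  let F : Quotient (Equiv.Perm.SameCycle.setoid (phi X s)) → Λ :=
    Quotient.lift p (fun y z h => same_inv hp h)
  have hF : Function.Surjective F := by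
    intro l
    obtain ⟨y, rfl⟩ := hsur l
    exact ⟨Quotient.mk _ y, rfl⟩
  exact Nat.card_le_card_of_surjective F hF

theorem circ_of_sep (X : CG V) (s : V → Bool) {Λ : Type} (p : V × Fin 3 → Λ)
    (hp : ∀ y, p (phi X s y) = p y) (hsep : ∀ y, p y ≠ p (rv X y)) : Circ X s :=
  fun y h => hsep y (same_inv hp h)

/-- the face of an oriented edge -/
def qt (X : CG V) (s : V → Bool) (y : V × Fin 3) :
    Quotient (Equiv.Perm.SameCycle.setoid (phi X s)) := Quotient.mk _ y

theorem qt_inv (X : CG V) (s : V → Bool) (y : V × Fin 3) : qt X s (phi X s y) = qt X s y :=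
  Quotient.sound (Equiv.Perm.sameCycle_apply_left.2 (Equiv.Perm.SameCycle.refl _ _))

theorem qt_sur (X : CG V) (s : V → Bool) : Function.Surjective (qt X s) :=
  fun c => Quotient.exists_rep c

theorem qt_sep {X : CG V} {s : V → Bool} (h : Circ X s) (y : V × Fin 3) :
    qt X s y ≠ qt X s (rv X y) := fun e => h y (Quotient.exact e)

variable [DecidableEq V] (X : CG V) (v : V)

/-- the signs of the new graph -/
def sUp (s : V → Bool) : V ⊕ Fin 2 → Bool
  | Sum.inl x => if x = v then !(s v) else s x
  | Sum.inr _ => !(s v)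

theorem sUp_tn (s : V → Bool) (i : Fin 3) : sUp v s (tn v i) = !(s v) := by
  fin_cases i
  · show sUp v s (Sum.inl v) = _
    simp only [sUp, if_true]
  · rfl
  · rfl

theorem sUp_inl (s : V → Bool) {x : V} (hx : x ≠ v) : sUp v s (Sum.inl x) = s x := by
  simp only [sUp, if_neg hx]

theorem sUp_sDn {s : V ⊕ Fin 2 → Bool} (h : ∀ i, s (tn v i) = s (Sum.inl v)) :
    sUp v (sDn v s) = s := by
  funext z
  rcases tri_cases v z with ⟨x, hx, rfl⟩ | ⟨i, rfl⟩
  · rw [sUp_inl v _ hx]
    simp only [sDn, if_neg hx]
  · rw [sUp_tn, h i]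
    simp only [sDn, if_true, Bool.not_not]

variable {Λ : Type} (q : V × Fin 3 → Λ)

/-- the label of the oriented edge with colour `k` at the vertex `i` of the triangle -/
def lc (a : Bool) (i k : Fin 3) : Option Λ :=
  if k = i then some (q (v, i)) else if k = i + st a then some (q (v, i + st (!a))) else none

/-- the labels in the new graph -/
def labT (a : Bool) : (V ⊕ Fin 2) × Fin 3 → Option Λ
  | (Sum.inl x, k) => if x = v then lc v q a 0 k else some (q (x, k))
  | (Sum.inr m, k) => if m = 0 then lc v q a 1 k else lc v q a 2 k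

theorem labT_tn (a : Bool) (i k : Fin 3) : labT v q a (tn v i, k) = lc v q a i k := by
  fin_cases i
  · show labT v q a (Sum.inl v, k) = _
    simp only [labT, if_true]
    rfl
  · rfl
  · rfl

theorem labT_old (a : Bool) {x : V} (hx : x ≠ v) (k : Fin 3) :
    labT v q a (Sum.inl x, k) = some (q (x, k)) := by
  simp only [labT, if_neg hx]

theorem lc_self (a : Bool) (i : Fin 3) : lc v q a i i = some (q (v, i)) := by
  simp only [lc, if_true]

theorem st_ne (a : Bool) (i : Fin 3) : i + st a ≠ i := by
  revert a i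
  decide

theorem st_ne2 (a : Bool) (i : Fin 3) : i + st (!a) ≠ i + st a := by
  revert a i
  decide

theorem lc_a (a : Bool) (i : Fin 3) : lc v q a i (i + st a) = some (q (v, i + st (!a))) := by
  have h := st_ne a i
  simp only [lc, if_neg h, if_true]

theorem lc_b (a : Bool) (i : Fin 3) : lc v q a i (i + st (!a)) = none := by
  have h := st_ne (!a) i
  have h' := st_ne2 a i
  simp only [lc, if_neg h, if_neg h']

theorem lc_t1 (i : Fin 3) : lc v q true i (i + 1) = some (q (v, i + 2)) := lc_a v q true i

theorem lc_t2 (i : Fin 3) : lc v q true i (i + 2) = none := lc_b v q true i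

theorem lc_f2 (i : Fin 3) : lc v q false i (i + 2) = some (q (v, i + 1)) := lc_a v q false i

theorem lc_f1 (i : Fin 3) : lc v q false i (i + 1) = none := lc_b v q false i

theorem labT_inv {s : V → Bool} (hq : ∀ y, q (phi X s y) = q y) (z : (V ⊕ Fin 2) × Fin 3) :
    labT v q (!(s v)) (phi (Tri X v) (sUp v s) z) = labT v q (!(s v)) z := by
  rcases z with ⟨z, k⟩
  have e : phi (Tri X v) (sUp v s) (z, k) = (tT X v k z, k + st (sUp v s (tT X v k z))) := rfl
  rw [e]
  rcases tri_cases v z with ⟨x, hx, rfl⟩ | ⟨i, rfl⟩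
  · rw [labT_old v q _ hx]
    by_cases h2 : X.t k x = v
    · have h3 : x = X.t k v := by rw [← h2, X.inv]
      have h4 : tT X v k (Sum.inl x) = tn v k := by rw [h3]; exact tT_ext X v k
      rw [h4, sUp_tn, labT_tn, lc_a, Bool.not_not]
      have h5 := hq (x, k)
      rw [phi_apply, h2] at h5
      rw [h5]
    · rw [tT_old X v hx h2, sUp_inl v s h2, labT_old v q _ h2]
      have h5 := hq (x, k)
      rw [phi_apply] at h5
      rw [h5]
  · rw [labT_tn]
    rcases three_cases i k with h | h | h
    · subst h
      have h6 := X.ne k v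
      rw [tT_tn, sUp_inl v s h6, labT_old v q _ h6, lc_self]
      have h5 := hq (v, k)
      rw [phi_apply] at h5
      rw [h5]
    · subst h
      rw [tT_tn1, sUp_tn, labT_tn]
      cases s v
      · show lc v q true (i + 2) (i + 1 + 1) = lc v q true i (i + 1)
        rw [a11, lc_self, lc_t1]
      · show lc v q false (i + 2) (i + 1 + 2) = lc v q false i (i + 1)
        have h7 := lc_f1 v q (i + 2)
        rw [a21] at h7
        rw [a12, h7, lc_f1]
    · subst h
      rw [tT_tn2, sUp_tn, labT_tn]
      cases s v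
      · show lc v q true (i + 1) (i + 2 + 1) = lc v q true i (i + 2)
        have h7 := lc_t2 v q (i + 1)
        rw [a12] at h7
        rw [a21, h7, lc_t2]
      · show lc v q false (i + 1) (i + 2 + 2) = lc v q false i (i + 2)
        rw [a22, lc_self, lc_f2]

theorem labT_sur (hq : Function.Surjective q) (a : Bool) :
    Function.Surjective (labT v q a) := by
  rintro (_ | l)
  · refine ⟨(tn v 0, 0 + st (!a)), ?_⟩
    rw [labT_tn, lc_b]
  · obtain ⟨⟨x, k⟩, rfl⟩ := hq l
    by_cases hx : x = v
    · subst hx
      refine ⟨(tn x k, k), ?_⟩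
      rw [labT_tn, lc_self]
    · exact ⟨(Sum.inl x, k), labT_old v q a hx k⟩

theorem labT_sep (hq : ∀ y, q y ≠ q (rv X y)) (a : Bool) (z : (V ⊕ Fin 2) × Fin 3) :
    labT v q a z ≠ labT v q a (rv (Tri X v) z) := by
  rcases z with ⟨z, k⟩
  have e : rv (Tri X v) (z, k) = (tT X v k z, k) := rfl
  rw [e]
  rcases tri_cases v z with ⟨x, hx, rfl⟩ | ⟨i, rfl⟩
  · rw [labT_old v q _ hx]
    by_cases h2 : X.t k x = v
    · have h3 : x = X.t k v := by rw [← h2, X.inv]
      have h4 : tT X v k (Sum.inl x) = tn v k := by rw [h3]; exact tT_ext X v k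
      rw [h4, labT_tn, lc_self]
      intro h
      have h5 := hq (x, k)
      have h6 : rv X (x, k) = (v, k) := by
        show (X.t k x, k) = (v, k)
        rw [h2]
      rw [h6] at h5
      exact h5 (Option.some.inj h)
    · rw [tT_old X v hx h2, labT_old v q _ h2]
      intro h
      exact hq (x, k) (Option.some.inj h)
  · rw [labT_tn]
    rcases three_cases i k with h | h | h
    · subst h
      have h6 := X.ne k v
      rw [tT_tn, labT_old v q _ h6, lc_self]
      intro h
      exact hq (v, k) (Option.some.inj h)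
    · subst h
      rw [tT_tn1, labT_tn]
      cases a
      · have h7 := lc_f2 v q (i + 2)
        rw [a22, a21] at h7
        rw [lc_f1, h7]
        exact (Option.some_ne_none _).symm
      · have h7 := lc_t2 v q (i + 2)
        rw [a22] at h7
        rw [lc_t1, h7]
        exact Option.some_ne_none _
    · subst h
      rw [tT_tn2, labT_tn]
      cases a
      · have h7 := lc_f1 v q (i + 1)
        rw [a11] at h7
        rw [lc_f2, h7]
        exact Option.some_ne_none _
      · have h7 := lc_t1 v q (i + 1)
        rw [a11, a12] at h7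
        rw [lc_t2, h7]
        exact (Option.some_ne_none _).symm

/-- a circuit-face sign function gives one of the new graph -/
theorem circ_up {s : V → Bool} (hs : Circ X s) : Circ (Tri X v) (sUp v s) :=
  circ_of_sep _ _ (labT v (qt X s) (!(s v))) (labT_inv X v (qt X s) (qt_inv X s))
    (labT_sep X v (qt X s) (qt_sep hs) _)

theorem nf_up [Finite V] (s : V → Bool) : nf X s + 1 ≤ nf (Tri X v) (sUp v s) := by
  have h := le_nf (Tri X v) (sUp v s) (labT v (qt X s) (!(s v)))
    (labT_inv X v (qt X s) (qt_inv X s)) (labT_sur v (qt X s) (qt_sur X s) _)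
  rw [Finite.card_option] at h
  exact h

theorem nf_dn [Finite V] {s : V ⊕ Fin 2 → Bool} (h1 : ∀ i, s (tn v i) = s (Sum.inl v)) :
    nf (Tri X v) s ≤ nf X (sDn v s) + 1 := by
  let F : Option (Quotient (Equiv.Perm.SameCycle.setoid (phi X (sDn v s)))) →
      Quotient (Equiv.Perm.SameCycle.setoid (phi (Tri X v) s)) := fun o =>
    match o with
    | none => Quotient.mk _ (Sum.inl v, st (!(s (Sum.inl v))))
    | some c => Quotient.lift (fun y => qt (Tri X v) s (prjT v y))
        (fun y z h => Quotient.sound (sameT X v s h1 h)) c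
  have hF : Function.Surjective F := by
    intro c
    obtain ⟨z, rfl⟩ := Quotient.exists_rep c
    rcases coverT X v s h1 z with ⟨y, hy⟩ | hz
    · exact ⟨some (Quotient.mk _ y), Quotient.sound hy⟩
    · exact ⟨none, Quotient.sound hz⟩
  have h := Nat.card_le_card_of_surjective F hF
  rw [Finite.card_option] at h
  exact h

/-- one more face -/
theorem nf_tri [Finite V] {s : V ⊕ Fin 2 → Bool} (hs : Circ (Tri X v) s) :
    nf (Tri X v) s = nf X (sDn v s) + 1 := by
  have h1 := tri_const X v s hs
  refine le_antisymm (nf_dn X v h1) ?_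
  have h2 := nf_up X v (sDn v s)
  rw [sUp_sDn v h1] at h2
  exact h2

end

end Pool.Agent.Helper53_SG
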